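import Pool.Agent.H12.SH.Main

/-! # The mass for large `N`: the final form -/

set_option autoImplicit false
set_option linter.unusedSectionVars false

noncomputable section

namespace Pool.Agent.H12.SH

open MeasureTheory Pool.Agent.H5R2.ON Pool.Agent.H717R2.ON3 Pool.Agent.H983R2.ONJ
open Pool.Agent.Y13.QM
open Pool.Agent.H12.LN Pool.Agent.H12.OL

/-- exponential decay on the tori, all `β ≤ δ N²` -/
theorem sharp_all {J : ℤ × ℤ → ℝ} (hJ : Admissible J) (ε : ℝ) (hε : 0 < ε) :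
    ∃ K δ : ℝ, 0 < K ∧ 0 < δ ∧ ∀ N : ℕ, 3 ≤ N → ∀ β : ℝ, 0 < β → β ≤ δ * (N : ℝ) ^ 2 →
      ∀ (L : ℕ) [NeZero L] (x y : Tor L), |corr N L J β x y| ≤ Real.exp 2 *
        Real.exp (-(Real.exp (-((2 * Real.pi * sig J + ε) * (β / N) +
          K * (1 + Real.log (1 + Real.log N))))) * tnorm (x - y)) := by
  obtain ⟨K1, δ1, hK1, hδ1, h1⟩ := sharp_tor hJ ε hε
  obtain ⟨C, hC, h2⟩ := tor_dec J hJ
  refine ⟨C + C * K1 + 9, min δ1 (1 / C), by positivity, by positivity, ?_⟩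
  intro N hN β hβ hβN L _ x y
  have hNpos : (0 : ℝ) < N := by exact_mod_cast (by omega : 0 < N)
  have hN1 : (1 : ℝ) ≤ N := by exact_mod_cast (by omega : 1 ≤ N)
  have hlN : 0 ≤ Real.log N := Real.log_nonneg hN1
  obtain ⟨l, hl⟩ : ∃ l : ℝ, l = 1 + Real.log N := ⟨_, rfl⟩
  have hl1 : 1 ≤ l := by rw [hl]; linarith
  have hll : 0 ≤ Real.log l := Real.log_nonneg hl1
  have hσ := sig_nonneg hJ
  have hπ := Real.pi_pos
  obtain ⟨t, ht⟩ : ∃ t : ℝ, t = β / N := ⟨_, rfl⟩
  have hβt : β = t * N := by rw [ht]; field_simp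
  have ht0 : 0 < t := by rw [ht]; positivity
  have hσt : 0 ≤ (2 * Real.pi * sig J + ε) * t := by positivity
  have hKl : 0 ≤ (C + C * K1 + 9) * (1 + Real.log l) := by positivity
  rw [← hl, ← ht]
  by_cases hcase : K1 * (N * (1 + Real.log l)) ≤ β
  · refine (h1 N hN β (by rw [← hl]; exact hcase) (hβN.trans ?_) L x y).trans ?_
    · exact mul_le_mul_of_nonneg_right (min_le_left _ _) (by positivity)
    · refine mul_le_mul_of_nonneg_left (Real.exp_le_exp.2 ?_) (Real.exp_pos _).le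
      rw [neg_mul, neg_mul]
      refine neg_le_neg (mul_le_mul_of_nonneg_right ?_ (tnorm_nonneg _))
      rw [← ht]
      exact Real.exp_le_exp.2 (by linarith)
  · push Not at hcase
    have hC2 : C * β ≤ (N : ℝ) ^ 2 := by
      have h3 : β ≤ 1 / C * (N : ℝ) ^ 2 :=
        hβN.trans (mul_le_mul_of_nonneg_right (min_le_right _ _) (by positivity))
      calc C * β ≤ C * (1 / C * (N : ℝ) ^ 2) := mul_le_mul_of_nonneg_left h3 hC.le
        _ = (N : ℝ) ^ 2 := by field_simp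
    refine (h2 N hN β hβ hC2 L x y).trans ?_
    refine mul_le_mul_of_nonneg_left (Real.exp_le_exp.2 ?_) (Real.exp_pos _).le
    rw [neg_mul, neg_mul]
    refine neg_le_neg (mul_le_mul_of_nonneg_right ?_ (tnorm_nonneg _))
    unfold rate
    rw [← hl, ← ht]
    have e9 : l ^ 9 = Real.exp (9 * Real.log l) := by
      have : Real.exp (9 * Real.log l) = Real.exp (Real.log l) ^ 9 := by
        rw [← Real.exp_nat_mul]
        norm_num
      rw [this, Real.exp_log (by linarith)]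
    rw [e9, ← Real.exp_sub]
    refine Real.exp_le_exp.2 ?_
    have h3 : t ≤ K1 * (1 + Real.log l) := by
      have h4 : N * t ≤ N * (K1 * (1 + Real.log l)) := by
        have e1 : N * (K1 * (1 + Real.log l)) = K1 * (N * (1 + Real.log l)) := by ring
        have e2 : N * t = β := by rw [hβt]; ring
        rw [e1, e2]
        exact hcase.le
      exact le_of_mul_le_mul_left h4 hNpos
    have h4 := mul_le_mul_of_nonneg_left h3 hC.le
    have e3 : (C + C * K1 + 9) * (1 + Real.log l) =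
      C * (1 + Real.log l) + C * (K1 * (1 + Real.log l)) + 9 + 9 * Real.log l := by ring
    have h5 : 0 ≤ C * Real.log l := mul_nonneg hC.le hll
    rw [e3]
    linarith

/-- **The mass for large `N`, sharp constant.** -/
theorem sharp_main (J : ℤ × ℤ → ℝ) (hJ : Admissible J) (ε : ℝ) (hε : 0 < ε) :
    ∃ K δ : ℝ, 0 < K ∧ 0 < δ ∧ ∀ N : ℕ, 3 ≤ N → ∀ β : ℝ, 0 < β → β ≤ δ * (N : ℝ) ^ 2 →
      ∀ m : ℝ, m = Real.exp (-((2 * Real.pi * sig J + ε) * (β / N) +
        K * (1 + Real.log (1 + Real.log N)))) →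
      (∀ (L : ℕ) [NeZero L] (x y : Tor L),
        |corr N L J β x y| ≤ Real.exp 2 * Real.exp (-m * tnorm (x - y))) ∧
      ∀ G : ℤ × ℤ → ℝ, IsLimitCorr N J β G →
        (∀ x, |G x| ≤ Real.exp 2 * Real.exp (-m * znorm x)) ∧
        Summable G ∧ ∑' x, G x ≤ Real.exp 8 / m ^ 2 ∧
        ∀ μ : ℝ, (∀ n : ℕ, 0 < G (n, 0)) →
          Filter.Tendsto (fun n : ℕ => -(1 / (n : ℝ)) * Real.log (G (n, 0))) Filter.atTop
            (nhds μ) → m ≤ μ := by
  obtain ⟨K, δ, hK, hδ, h⟩ := sharp_all hJ ε hε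
  refine ⟨K, δ, hK, hδ, ?_⟩
  intro N hN β hβ hβN m hm
  have hN1 : (1 : ℝ) ≤ N := by exact_mod_cast (by omega : 1 ≤ N)
  have hlN : 0 ≤ Real.log N := Real.log_nonneg hN1
  have hll : 0 ≤ Real.log (1 + Real.log N) := Real.log_nonneg (by linarith)
  have hσ := sig_nonneg hJ
  have hπ := Real.pi_pos
  have hm0 : 0 < m := by rw [hm]; exact Real.exp_pos _
  have hm1 : m ≤ 1 := by
    rw [hm]
    refine Real.exp_le_one_iff.2 ?_
    have : 0 ≤ (2 * Real.pi * sig J + ε) * (β / N) +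
      K * (1 + Real.log (1 + Real.log N)) := by positivity
    linarith
  have h1 := h N hN β hβ hβN
  simp only [← hm] at h1
  exact ⟨h1, pack J N β m hm0 hm1 h1⟩

end Pool.Agent.H12.SH
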