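import Pool.Agent.H12.SH.Stp

/-! # The isotropy scale, from a small constant to `3/N`, and the decay beyond it -/

set_option autoImplicit false
set_option linter.unusedSectionVars false

noncomputable section

namespace Pool.Agent.H12.SH

open MeasureTheory Pool.Agent.H5R2.ON Pool.Agent.H717R2.ON3 Pool.Agent.H983R2.ONJ
open Pool.Agent.H12.LN Pool.Agent.H12.OL

/-- a rough constant -/
def Ks (J : ℤ × ℤ → ℝ) : ℝ := 1 + sig J * (7 * (2 * Real.pi + 120))

theorem Ks_one {J : ℤ × ℤ → ℝ} (hJ : Admissible J) : 1 ≤ Ks J := by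
  unfold Ks
  have := sig_nonneg hJ
  have := Real.pi_pos
  have : 0 ≤ sig J * (7 * (2 * Real.pi + 120)) := by positivity
  linarith

theorem Ks_le {J : ℤ × ℤ → ℝ} (hJ : Admissible J) {q : ℝ} (hq : 1 ≤ q) :
    sig J * ((1 + 32 / 6) * (2 * Real.pi + 120 / q)) ≤ Ks J := by
  unfold Ks
  have h0 := sig_nonneg hJ
  have h1 := Real.pi_pos
  have h2 : 120 / q ≤ 120 := div_le_self (by norm_num) hq
  have h3 : 0 ≤ 120 / q := by positivity
  have h4 : (1 + 32 / 6 : ℝ) * (2 * Real.pi + 120 / q) ≤ 7 * (2 * Real.pi + 120) := by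
    refine mul_le_mul (by norm_num) (by linarith) (by positivity) (by norm_num)
  have := mul_le_mul_of_nonneg_left h4 h0
  linarith

/-- **Second stage**: from a constant `v` to `3 / N`. -/
theorem isoB {J : ℤ × ℤ → ℝ} (hJ : Admissible J) : ∃ K : ℝ, 1 ≤ K ∧ ∀ N : ℕ, 2 ≤ N →
    ∀ β : ℝ, 0 ≤ β → ∀ v : ℝ, 0 < v → v ≤ 1 → ∀ r1 : ℝ, K * ((1 + β / N) + Real.log N) ≤ r1 →
    UB J N β r1 v → ∀ R : ℝ,
      r1 * (Real.exp (K * v * (1 + β / N)) * (Real.exp 3 * (1 + Real.log N) ^ 8)) ≤ R →
      UB J N β R (3 / N) := by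
  obtain ⟨C, a, hC, ha, hst⟩ := steps hJ
  obtain ⟨K, hK⟩ : ∃ K : ℝ, K = Ks J := ⟨_, rfl⟩
  have hK1 : 1 ≤ K := by rw [hK]; exact Ks_one hJ
  obtain ⟨K3, hK3, herr⟩ := errN (2 * a / 6) C (33 * K) (by positivity) hC (by positivity)
  refine ⟨K3 + 2 + 160 * K, by linarith, ?_⟩
  intro N hN A hA v hv0 hv1 r1 hr1 hUr R hR
  have hN0 : N ≠ 0 := by omega
  have hNpos : (0 : ℝ) < N := by exact_mod_cast Nat.pos_of_ne_zero hN0
  have hN1 : (1 : ℝ) ≤ N := by exact_mod_cast (by omega : 1 ≤ N)
  have hN2 : (2 : ℝ) ≤ N := by exact_mod_cast hN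
  have hlN : 0 ≤ Real.log N := Real.log_nonneg hN1
  obtain ⟨b, hb⟩ : ∃ b : ℝ, b = 1 + A / N := ⟨_, rfl⟩
  have hb1 : 1 ≤ b := by
    rw [hb]
    have : 0 ≤ A / N := by positivity
    linarith
  have hAN : A ≤ b * N := by
    rw [hb, add_mul, div_mul_cancel₀ _ hNpos.ne']
    linarith
  rw [← hb] at hR hr1
  have hbl : 1 ≤ b + Real.log N := by linarith
  have hr12 : 2 ≤ r1 := by
    refine le_trans ?_ hr1
    nlinarith
  have hr13 : K3 * (b + Real.log N) ≤ r1 := by
    refine le_trans ?_ hr1
    nlinarith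
  obtain ⟨ρ, hρ⟩ : ∃ ρ : ℝ, ρ = Real.exp (-(1 / 4)) := ⟨_, rfl⟩
  have hρ0 : 0 < ρ := by rw [hρ]; exact Real.exp_pos _
  have hρ1 : ρ ≤ 4 / 5 := by
    rw [hρ, Real.exp_neg]
    have h1 := Real.add_one_le_exp (1 / 4 : ℝ)
    have h2 : (5 / 4 : ℝ) ≤ Real.exp (1 / 4) := by linarith
    rw [inv_le_comm₀ (Real.exp_pos _) (by norm_num)]
    norm_num
    linarith
  obtain ⟨α, hα⟩ : ∃ α : ℕ → ℝ, α = fun k => (3 / 2 : ℝ) ^ k - 1 := ⟨_, rfl⟩
  have hα0 : α 0 = 0 := by rw [hα]; simp
  have hαs : ∀ k, α (k + 1) = 3 / 2 * α k + 1 / 2 := by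
    intro k
    rw [hα]
    simp only [pow_succ]
    ring
  have hαk : ∀ k : ℕ, (k : ℝ) / 2 ≤ α k := by
    intro k
    have := one_add_mul_le_pow (a := (1 / 2 : ℝ)) (by norm_num) k
    have e : (1 + 1 / 2 : ℝ) = 3 / 2 := by norm_num
    rw [e] at this
    rw [hα]
    simp only
    linarith
  have hP : ∀ k : ℕ, ∃ r : ℝ, r1 ≤ r ∧
      r ≤ r1 * Real.exp (3 * k + 32 * K * b * v * (5 * (1 - ρ ^ k))) ∧
      UB J N A r (max (3 / N) (v * Real.exp (-α k))) := by
    intro k
    induction k with
    | zero =>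
      refine ⟨r1, le_rfl, ?_, ?_⟩
      · simp
      · rw [hα0, neg_zero, Real.exp_zero, mul_one]
        exact UB_mono hN0 hUr le_rfl (le_max_right _ _)
    | succ k ih =>
      obtain ⟨r, hr1', hr2, hU⟩ := ih
      have hρk : 0 < ρ ^ k := by positivity
      have hK0 : 0 < 32 * K * b * v := by positivity
      have hgeo : 32 * K * b * v * (5 * (1 - ρ ^ k)) + 32 * K * b * v * ρ ^ k ≤
          32 * K * b * v * (5 * (1 - ρ ^ (k + 1))) := by
        rw [← mul_add]
        refine mul_le_mul_of_nonneg_left ?_ hK0.le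
        rw [pow_succ]
        nlinarith
      by_cases hcase : v * Real.exp (-α k) ≤ 3 / N
      · refine ⟨r, hr1', hr2.trans ?_, ?_⟩
        · refine mul_le_mul_of_nonneg_left (Real.exp_le_exp.2 ?_) (by linarith)
          push_cast
          have : 0 ≤ 32 * K * b * v * ρ ^ k := by positivity
          linarith
        · rw [max_eq_left hcase] at hU
          exact UB_mono hN0 hU le_rfl (le_max_left _ _)
      · push Not at hcase
        rw [max_eq_right hcase.le] at hU
        obtain ⟨w, hw⟩ : ∃ w : ℝ, w = v * Real.exp (-α k) := ⟨_, rfl⟩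
        have hw0 : 0 < w := by rw [hw]; positivity
        rw [← hw] at hU hcase
        have hu : 1 / (N : ℝ) ≤ w := by
          refine le_trans ?_ hcase.le
          gcongr
          norm_num
        obtain ⟨q, hq⟩ : ∃ q : ℕ, q = ⌈32 * K * b * v * Real.exp (-(α k / 2))⌉₊ := ⟨_, rfl⟩
        have hqpos : 0 < 32 * K * b * v * Real.exp (-(α k / 2)) := by positivity
        have hq1 : 1 ≤ q := by
          rw [hq]
          exact Nat.one_le_iff_ne_zero.2 (Nat.pos_iff_ne_zero.1 (Nat.ceil_pos.2 hqpos))
        have hq2 : 32 * K * b * v * Real.exp (-(α k / 2)) ≤ q := by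
          rw [hq]
          exact Nat.le_ceil _
        have hq3 : (q : ℝ) ≤ 32 * K * b * v * Real.exp (-(α k / 2)) + 1 := by
          rw [hq]
          exact (Nat.ceil_lt_add_one hqpos.le).le
        have hq1' : (1 : ℝ) ≤ q := by exact_mod_cast hq1
        have hq0 : (0 : ℝ) < q := by linarith
        have hαk0 : 0 ≤ α k := le_trans (by positivity) (hαk k)
        have hq4 : (q : ℝ) ≤ 33 * K * (1 + A / N) := by
          rw [← hb]
          have h1 : Real.exp (-(α k / 2)) ≤ 1 := Real.exp_le_one_iff.2 (by linarith)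
          have h2 : 32 * K * b * v * Real.exp (-(α k / 2)) ≤ 32 * K * b * v * 1 :=
            mul_le_mul_of_nonneg_left h1 hK0.le
          have h3 : 32 * K * b * v ≤ 32 * K * b := mul_le_of_le_one_right (by positivity) hv1
          have h4 : 1 ≤ K * b := one_le_mul_of_one_le_of_one_le hK1 hb1
          linarith
        have hq5 : (q : ℝ) ≤ 32 * K * b * v * ρ ^ k + 1 := by
          refine hq3.trans ?_
          have h1 : Real.exp (-(α k / 2)) ≤ ρ ^ k := by
            rw [hρ, ← Real.exp_nat_mul]
            refine Real.exp_le_exp.2 ?_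
            linarith [hαk k]
          have := mul_le_mul_of_nonneg_left h1 hK0.le
          linarith
        have hr2' : 2 ≤ r := hr12.trans hr1'
        obtain ⟨-, herr1, herr2⟩ := herr N (by omega) A hA r (by rw [← hb]; exact hr13.trans hr1')
          q hq4
        have hs := (hst 6 le_rfl N hN A hA r hr2' q hq1 w hw0 hU).1
          (max (2 / N) ((8 * K * A * w / (N * q)) * w)) (by
            intro U hU0 hU1
            have hi0 := iot_nonneg hJ hN (q := (q : ℝ)) (Λ := 6) hA (by linarith : 0 < r) hq0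
              (by norm_num) hw0.le
            refine alg_rough hNpos hw0 hU0 hi0 ?_ hU1
            have h1 := iot_le hN hA (by linarith : 0 < r) hq0 hw0.le (Ks_le hJ hq1')
            rw [← hK] at h1
            have h2 : ((N : ℝ) - 2) * w + 1 ≤ 2 * N * w := by
              rw [div_le_iff₀ hNpos] at hu
              nlinarith
            have h3 : iot J N A r q (r / 6) w ≤ A * K / q * (2 * N * w) :=
              h1.trans (mul_le_mul_of_nonneg_left h2 (by positivity))
            have h4 : 8 * K * A * w / (N * q) * N ^ 2 = 4 * (A * K / q * (2 * N * w)) := by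
              field_simp
              ring
            rw [h4]
            linarith)
        refine ⟨2 * r * (Real.exp q + 1), ?_, ?_, ?_⟩
        · have h1 := Real.exp_pos (q : ℝ)
          have h2 : 0 ≤ r * Real.exp (q : ℝ) := by positivity
          linarith
        · have h1 : 1 ≤ Real.exp (q : ℝ) := Real.one_le_exp hq0.le
          have h2 : (4 : ℝ) ≤ Real.exp 2 := by
            have h3 := Real.quadratic_le_exp_of_nonneg (x := 2) (by norm_num)
            linarith
          have h3 : 2 * r * (Real.exp q + 1) ≤ r * Real.exp (2 + q) := by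
            rw [Real.exp_add]
            have h4 := mul_le_mul_of_nonneg_right h2 (by positivity : 0 ≤ Real.exp (q : ℝ))
            have h5 := mul_le_mul_of_nonneg_left h4 (by linarith : 0 ≤ r)
            have h6 := mul_le_mul_of_nonneg_left h1 (by linarith : 0 ≤ r)
            linarith
          refine h3.trans ?_
          calc r * Real.exp (2 + q) ≤ (r1 * Real.exp (3 * k + 32 * K * b * v *
                (5 * (1 - ρ ^ k)))) * Real.exp (2 + q) :=
                mul_le_mul_of_nonneg_right hr2 (Real.exp_pos _).le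
            _ = r1 * Real.exp (3 * k + 32 * K * b * v * (5 * (1 - ρ ^ k)) + (2 + q)) := by
                rw [mul_assoc, ← Real.exp_add]
            _ ≤ _ := by
                refine mul_le_mul_of_nonneg_left (Real.exp_le_exp.2 ?_) (by linarith)
                push_cast
                linarith
        · refine UB_mono hN0 hs le_rfl ?_
          have h1 : 8 * K * A * w / (N * q) * w ≤ (v * Real.exp (-α (k + 1))) / 2 := by
            rw [div_mul_eq_mul_div, div_le_div_iff₀ (by positivity) (by norm_num)]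
            have h2 : Real.exp (-α k) ^ 2 = Real.exp (-α (k + 1)) *
                (Real.exp (-(α k / 2)) * Real.exp (1 / 2)) := by
              rw [← Real.exp_add, ← Real.exp_add, ← Real.exp_nat_mul, hαs]
              congr 1
              push_cast
              ring
            have h3 : Real.exp (1 / 2) ≤ 2 := by
              have h4 : Real.exp (1 / 2) ^ 2 ≤ 2 ^ 2 := by
                rw [← Real.exp_nat_mul]
                have := Real.exp_one_lt_d9
                norm_num
                linarith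
              exact le_of_sq_le_sq h4 (by norm_num)
            have e1 : 8 * K * A * w * w * 2 = 8 * K * A * v ^ 2 * Real.exp (-α k) ^ 2 * 2 := by
              rw [hw]
              ring
            rw [e1, h2]
            calc 8 * K * A * v ^ 2 * (Real.exp (-α (k + 1)) * (Real.exp (-(α k / 2)) *
                  Real.exp (1 / 2))) * 2
                ≤ 8 * K * (b * N) * v ^ 2 * (Real.exp (-α (k + 1)) *
                  (Real.exp (-(α k / 2)) * 2)) * 2 := by
                  gcongr
              _ = (v * Real.exp (-α (k + 1))) *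
                  (N * (32 * K * b * v * Real.exp (-(α k / 2)))) := by ring
              _ ≤ (v * Real.exp (-α (k + 1))) * (N * q) := by gcongr
          have h5 : Real.exp (C * (1 + A) * (2 * r * (Real.exp q + 1)) ^ 2 *
              Real.exp (-((2 * a / 6) / 2) * r)) - 1 ≤ 1 / N := herr1.trans herr2
          have h7 : 0 < 1 / (N : ℝ) := by positivity
          have h8 : (2 : ℝ) / N = 2 * (1 / N) := by ring
          have h9 : (3 : ℝ) / N = 3 * (1 / N) := by ring
          rcases le_total (2 / (N : ℝ)) (8 * K * A * w / (N * q) * w) with h | h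
          · rw [max_eq_right h]
            rcases le_total (v * Real.exp (-α (k + 1))) (3 / N) with h10 | h10
            · refine le_trans ?_ (le_max_left _ _)
              linarith
            · refine le_trans ?_ (le_max_right _ _)
              linarith
          · rw [max_eq_left h]
            refine le_trans ?_ (le_max_left _ _)
            linarith
  -- the number of steps
  obtain ⟨n, hn1, hn2⟩ := exists_nat_pow_near (x := 1 + Real.log N) (y := 3 / 2)
    (by linarith) (by norm_num)
  obtain ⟨r, -, hr2, hU⟩ := hP (n + 1)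
  have hfin : max (3 / (N : ℝ)) (v * Real.exp (-α (n + 1))) ≤ 3 / N := by
    refine max_le le_rfl ?_
    have h1 : Real.log N ≤ α (n + 1) := by
      rw [hα]
      simp only
      linarith
    calc v * Real.exp (-α (n + 1)) ≤ 1 * Real.exp (-Real.log N) :=
          mul_le_mul hv1 (Real.exp_le_exp.2 (by linarith)) (Real.exp_pos _).le zero_le_one
      _ = 1 / N := by rw [one_mul, Real.exp_neg, Real.exp_log hNpos, one_div]
      _ ≤ 3 / N := by
        gcongr
        norm_num
  refine UB_mono hN0 hU ?_ hfin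
  refine hr2.trans (le_trans ?_ hR)
  have hρn : 0 < ρ ^ (n + 1) := by positivity
  have h2 : Real.exp (3 * ((n + 1 : ℕ) : ℝ)) ≤ Real.exp 3 * (1 + Real.log N) ^ 8 := by
    have e1 : Real.exp (3 * ((n + 1 : ℕ) : ℝ)) = Real.exp 3 * Real.exp 3 ^ n := by
      rw [← Real.exp_nat_mul, ← Real.exp_add]
      congr 1
      push_cast
      ring
    rw [e1]
    refine mul_le_mul_of_nonneg_left ?_ (Real.exp_pos _).le
    have h3 : Real.exp 3 ≤ (3 / 2 : ℝ) ^ 8 := by
      have h4 : Real.exp 3 = Real.exp 1 ^ 3 := by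
        rw [← Real.exp_nat_mul]
        norm_num
      rw [h4]
      have h5 : Real.exp 1 ≤ 2.7182818286 := Real.exp_one_lt_d9.le
      calc Real.exp 1 ^ 3 ≤ (2.7182818286 : ℝ) ^ 3 := pow_le_pow_left₀ (Real.exp_pos _).le h5 3
        _ ≤ _ := by norm_num
    calc Real.exp 3 ^ n ≤ ((3 / 2 : ℝ) ^ 8) ^ n := pow_le_pow_left₀ (Real.exp_pos _).le h3 n
      _ = ((3 / 2 : ℝ) ^ n) ^ 8 := by rw [← pow_mul, ← pow_mul, mul_comm]
      _ ≤ (1 + Real.log N) ^ 8 := pow_le_pow_left₀ (by positivity) hn1 8
  have h3 : Real.exp (32 * K * b * v * (5 * (1 - ρ ^ (n + 1)))) ≤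
      Real.exp ((K3 + 2 + 160 * K) * v * b) := by
    refine Real.exp_le_exp.2 ?_
    have h4 : 0 ≤ 160 * K * b * v * ρ ^ (n + 1) := by positivity
    have h5 : 0 ≤ (K3 + 2) * v * b := by positivity
    linarith
  rw [Real.exp_add]
  refine mul_le_mul_of_nonneg_left ?_ (by linarith)
  rw [mul_comm]
  exact mul_le_mul h3 h2 (Real.exp_pos _).le (Real.exp_pos _).le

end Pool.Agent.H12.SH
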