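import Pool.Agent.H12.SH.StA
import Pool.Agent.H12.SH.StB
import Pool.Agent.H12.SH.Crit
import Pool.Agent.H12.LN.Model

/-! # The mass for large `N` with the sharp constant in the exponent -/

set_option autoImplicit false
set_option linter.unusedSectionVars false

noncomputable section

namespace Pool.Agent.H12.SH

open MeasureTheory Pool.Agent.H5R2.ON Pool.Agent.H717R2.ON3 Pool.Agent.H983R2.ONJ
open Pool.Agent.Y13.QM
open Pool.Agent.H12.LN Pool.Agent.H12.OL
open Pool.Agent.Results.MP_8be4c0_mp.MassLowerBound (cJ corr_eq)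

/-- decay of the influence beyond the isotropy scale -/
theorem mdecB {J : ℤ × ℤ → ℝ} (hJ : Admissible J) : ∃ K1 K2 : ℝ, 8 ≤ K1 ∧ 1 ≤ K2 ∧
    ∀ N : ℕ, 3 ≤ N → ∀ A : ℝ, 1 ≤ A → ∀ z : ℝ, z = K1 * √A / N → ∀ ρ : ℝ,
      K2 * ((1 + A / N) + Real.log N) ≤ ρ → UB J N A ρ (3 / N) → ∀ j : ℕ,
      MB J N A (ρ * 8 ^ j) (z ^ j) := by
  obtain ⟨C, a, hC, ha, hst⟩ := steps hJ
  obtain ⟨K, hK⟩ : ∃ K : ℝ, K = Ks J := ⟨_, rfl⟩
  have hK1 : 1 ≤ K := by rw [hK]; exact Ks_one hJ
  obtain ⟨a', ha'⟩ : ∃ a' : ℝ, a' = 2 * a / 6 := ⟨_, rfl⟩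
  have ha'0 : 0 < a' := by rw [ha']; positivity
  obtain ⟨K3, hK3, herr⟩ := errN a' C 1 ha'0 hC zero_le_one
  have hsK : 1 ≤ √K := Real.one_le_sqrt.2 hK1
  refine ⟨8 * √K, K3 + 2, by linarith, by linarith, ?_⟩
  intro N hN A hA z hz ρ hρ hUρ
  have hN0 : N ≠ 0 := by omega
  have hNpos : (0 : ℝ) < N := by exact_mod_cast Nat.pos_of_ne_zero hN0
  have hN1 : (1 : ℝ) ≤ N := by exact_mod_cast (by omega : 1 ≤ N)
  have hN3 : (3 : ℝ) ≤ N := by exact_mod_cast hN
  have hlN : 0 ≤ Real.log N := Real.log_nonneg hN1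
  have hA0 : 0 ≤ A := by linarith
  obtain ⟨b, hb⟩ : ∃ b : ℝ, b = 1 + A / N := ⟨_, rfl⟩
  have hb1 : 1 ≤ b := by
    rw [hb]
    have : 0 ≤ A / N := by positivity
    linarith
  have hsA : 1 ≤ √A := Real.one_le_sqrt.2 hA
  have hKA1 : 1 ≤ √K * √A := one_le_mul_of_one_le_of_one_le hsK hsA
  have hz0 : 8 / N ≤ z := by
    rw [hz]
    refine div_le_div_of_nonneg_right ?_ hNpos.le
    rw [mul_assoc]
    linarith
  have hzpos : 0 < z := lt_of_lt_of_le (by positivity) hz0
  rw [← hb] at hρ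
  have hbl : 1 ≤ b + Real.log N := by linarith
  have hρ2 : K3 * (b + Real.log N) ≤ ρ := by
    refine le_trans ?_ hρ
    nlinarith
  have hρ0 : 2 ≤ ρ := by
    refine le_trans ?_ hρ
    nlinarith
  intro j
  induction j with
  | zero =>
    rw [pow_zero, pow_zero, mul_one]
    exact MB_one J hN0 A ρ
  | succ j ih =>
    have h8 : (1 : ℝ) + j ≤ 8 ^ j := by
      have := one_add_mul_le_pow (a := (7 : ℝ)) (by norm_num) j
      have e : (1 + 7 : ℝ) = 8 := by norm_num
      rw [e] at this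
      have hj : (0 : ℝ) ≤ j := Nat.cast_nonneg j
      linarith
    have h81 : (1 : ℝ) ≤ 8 ^ j := one_le_pow₀ (by norm_num)
    have hr1 : ρ ≤ ρ * 8 ^ j := le_mul_of_one_le_right (by linarith) h81
    have hU : UB J N A (ρ * 8 ^ j) (3 / N) := UB_mono hN0 hUρ hr1 le_rfl
    have e1' : ((1 : ℕ) : ℝ) = 1 := Nat.cast_one
    have hs := (hst 6 le_rfl N (by omega) A hA0 (ρ * 8 ^ j) (hρ0.trans hr1) 1 le_rfl (3 / N)
      (by positivity) hU).2 (z ^ j) (z ^ j * (√(4 * K * A) / ((N : ℝ) - 1))) (by positivity) ih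
      (by
        intro α hα
        rw [e1'] at hα
        have hi := iot_le (Λ := 6) (by omega : 2 ≤ N) hA0 (by linarith : 0 < ρ * 8 ^ j) one_pos
          (by positivity : 0 ≤ 3 / (N : ℝ)) (Ks_le hJ le_rfl)
        rw [← hK, div_one] at hi
        have h4 : ((N : ℝ) - 2) * (3 / N) + 1 ≤ 4 := by
          have : ((N : ℝ) - 2) * (3 / N) ≤ 3 := by
            rw [mul_div_assoc', div_le_iff₀ hNpos]
            linarith
          linarith
        have hi2 : iot J N A (ρ * 8 ^ j) 1 (ρ * 8 ^ j / 6) (3 / N) ≤ 4 * K * A := by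
          have h5 : A * K * (((N : ℝ) - 2) * (3 / N) + 1) ≤ A * K * 4 :=
            mul_le_mul_of_nonneg_left h4 (by positivity)
          linarith
        have hi0 : 0 ≤ iot J N A (ρ * 8 ^ j) 1 (ρ * 8 ^ j / 6) (3 / N) :=
          iot_nonneg hJ (by omega) hA0 (by linarith) one_pos (by norm_num) (by positivity)
        have h5 : ((N : ℝ) - 1) ^ 2 * α ^ 2 ≤ 4 * K * A * (z ^ j) ^ 2 := by
          have h6 : iot J N A (ρ * 8 ^ j) 1 (ρ * 8 ^ j / 6) (3 / N) * ((z ^ j) ^ 2 - α ^ 2) ≤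
              iot J N A (ρ * 8 ^ j) 1 (ρ * 8 ^ j / 6) (3 / N) * (z ^ j) ^ 2 :=
            mul_le_mul_of_nonneg_left (by linarith [sq_nonneg α]) hi0
          have h7 := mul_le_mul_of_nonneg_right hi2 (sq_nonneg (z ^ j))
          linarith
        have h6 : (((N : ℝ) - 1) * |α|) ^ 2 ≤ (√(4 * K * A) * z ^ j) ^ 2 := by
          rw [mul_pow, mul_pow, sq_abs, Real.sq_sqrt (by positivity)]
          exact h5
        have h7 := le_of_sq_le_sq h6 (by positivity)
        have hN10 : (0 : ℝ) < N - 1 := by linarith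
        rw [mul_div_assoc', le_div_iff₀ hN10]
        linarith)
    rw [e1', ← ha'] at hs
    refine MB_mono hN0 hs ?_ ?_
    · have he : 2 * (Real.exp 1 + 1) ≤ 8 := by
        have := Real.exp_one_lt_d9
        linarith
      have h9 := mul_le_mul_of_nonneg_left he (by positivity : 0 ≤ ρ * 8 ^ j)
      have e1 : 2 * (ρ * 8 ^ j) * (Real.exp 1 + 1) = ρ * 8 ^ j * (2 * (Real.exp 1 + 1)) := by ring
      have e2 : ρ * 8 ^ (j + 1) = ρ * 8 ^ j * 8 := by rw [pow_succ]; ring
      rw [e1, e2]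
      exact h9
    · have hfac : √(4 * K * A) / ((N : ℝ) - 1) ≤ z / 2 := by
        have e1 : √(4 * K * A) = 2 * √K * √A := by
          rw [Real.sqrt_mul (by positivity), Real.sqrt_mul (by norm_num),
            show (4 : ℝ) = 2 ^ 2 by norm_num, Real.sqrt_sq (by norm_num)]
        rw [e1, hz, div_le_iff₀ (by linarith), div_div, div_mul_eq_mul_div,
          le_div_iff₀ (by positivity)]
        have h0 : 0 ≤ √K * √A := by positivity
        have e2 : 2 * √K * √A * ((N : ℝ) * 2) = 4 * ((√K * √A) * N) := by ring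
        have e3 : 8 * √K * √A * ((N : ℝ) - 1) = (√K * √A) * (8 * (N - 1)) := by ring
        rw [e2, e3]
        have h1 := mul_le_mul_of_nonneg_left (by linarith : (4 : ℝ) * N ≤ 8 * (N - 1)) h0
        linarith
      have herr' : Real.exp (C * (1 + A) * (2 * (ρ * 8 ^ j) * (Real.exp 1 + 1)) ^ 2 *
          Real.exp (-(a' / 2) * (ρ * 8 ^ j))) - 1 ≤ z ^ (j + 1) / 2 := by
        have h1 := (herr N (by omega) A hA0 (ρ * 8 ^ j) (by rw [← hb]; exact hρ2.trans hr1) 1 (by
          rw [← hb]; push_cast; linarith)).2.1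
        rw [Nat.cast_one] at h1
        refine h1.trans ?_
        have h2 := (herr N (by omega) A hA0 ρ (by rw [← hb]; exact hρ2) 1 (by
          rw [← hb]; push_cast; linarith)).2.2
        have h3 : Real.exp (-(a' / 8) * (ρ * 8 ^ j)) ≤ (1 / (N : ℝ)) ^ (j + 1) := by
          calc Real.exp (-(a' / 8) * (ρ * 8 ^ j)) ≤ Real.exp (-(a' / 8) * ρ) ^ (j + 1) := by
                rw [← Real.exp_nat_mul]
                refine Real.exp_le_exp.2 ?_
                push_cast
                have h4 : 0 ≤ (a' / 8) * ρ := by positivity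
                have h5 := mul_le_mul_of_nonneg_left h8 h4
                have e1 : -(a' / 8) * (ρ * 8 ^ j) = -((a' / 8) * ρ * 8 ^ j) := by ring
                have e2 : ((j : ℝ) + 1) * (-(a' / 8) * ρ) = -((a' / 8) * ρ * (1 + j)) := by ring
                rw [e1, e2]
                linarith
            _ ≤ _ := pow_le_pow_left₀ (Real.exp_pos _).le h2 _
        refine h3.trans ?_
        have h4 : (8 / (N : ℝ)) ^ (j + 1) ≤ z ^ (j + 1) := pow_le_pow_left₀ (by positivity) hz0 _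
        have h5 : (8 / (N : ℝ)) ^ (j + 1) = 8 ^ (j + 1) * (1 / (N : ℝ)) ^ (j + 1) := by
          rw [← mul_pow]
          congr 1
          ring
        have h6 : (2 : ℝ) ≤ 8 ^ (j + 1) := by
          rw [pow_succ]
          linarith
        have h7 : 0 ≤ (1 / (N : ℝ)) ^ (j + 1) := by positivity
        have h9 := mul_le_mul_of_nonneg_right h6 h7
        rw [← h5] at h9
        linarith
      have h1 : z ^ j * (√(4 * K * A) / ((N : ℝ) - 1)) ≤ z ^ j * (z / 2) :=
        mul_le_mul_of_nonneg_left hfac (by positivity)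
      have h2 : z ^ j * (z / 2) + z ^ (j + 1) / 2 = z ^ (j + 1) := by
        rw [pow_succ]
        ring
      linarith

theorem Cls_self {J : ℤ × ℤ → ℝ} (hJ : Admissible J) {β : ℝ} (hβ : 0 ≤ β) (L : ℕ) [NeZero L] :
    Cls J β (cJ L J β) := by
  intro e
  refine ⟨?_, le_rfl⟩
  unfold cJ
  split_ifs with h
  · exact le_rfl
  · exact mul_nonneg hβ (Jper_nonneg hJ.nonneg (sub_ne_zero.2 h))

/-- **Exponential decay with the sharp constant.** -/
theorem sharp_tor {J : ℤ × ℤ → ℝ} (hJ : Admissible J) (ε : ℝ) (hε : 0 < ε) :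
    ∃ K δ : ℝ, 1 ≤ K ∧ 0 < δ ∧ ∀ N : ℕ, 3 ≤ N → ∀ β : ℝ,
      K * (N * (1 + Real.log (1 + Real.log N))) ≤ β → β ≤ δ * (N : ℝ) ^ 2 →
      ∀ (L : ℕ) [NeZero L] (x y : Tor L), |corr N L J β x y| ≤ Real.exp 2 *
        Real.exp (-(Real.exp (-((2 * Real.pi * sig J + ε) * (β / N)))) * tnorm (x - y)) := by
  obtain ⟨A', a', hA', ha', hexp⟩ := Cls_exp hJ
  obtain ⟨P, hP, hcrit⟩ := critC a' ha'
  obtain ⟨PA, hPA⟩ : ∃ PA : ℝ, PA = P * (A' + 1) := ⟨_, rfl⟩
  have hPA0 : 0 < PA := by rw [hPA]; positivity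
  obtain ⟨K4, hK4, herr⟩ := errN a' PA 0 ha' hPA0 le_rfl
  obtain ⟨KB, hKB, hisoB⟩ := isoB hJ
  obtain ⟨v, hv⟩ : ∃ v : ℝ, v = 1 / (1 + 16 * KB / ε) := ⟨_, rfl⟩
  have hden : 1 ≤ 1 + 16 * KB / ε := by
    have : 0 ≤ 16 * KB / ε := by positivity
    linarith
  have hv0 : 0 < v := by rw [hv]; positivity
  have hv1 : v ≤ 1 := by
    rw [hv, div_le_one (by linarith)]
    exact hden
  have hvε : KB * v ≤ ε / 16 := by
    rw [hv, mul_one_div, div_le_iff₀ (by linarith)]
    have e1 : ε / 16 * (1 + 16 * KB / ε) = ε / 16 + KB := by field_simp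
    rw [e1]
    linarith
  obtain ⟨KA, hKA, hstA⟩ := stageA hJ (ε / 4) v (by positivity) hv0 hv1
  obtain ⟨K1, K2, hK1, hK2, hmd⟩ := mdecB hJ
  have h2a : 0 < 2 / a' := by positivity
  obtain ⟨Km, hKm⟩ : ∃ Km : ℝ, Km = KA + KB + K2 + K4 + 2 / a' := ⟨_, rfl⟩
  have hKm1 : 1 ≤ Km := by rw [hKm]; linarith
  have hlKm : 0 ≤ Real.log Km := Real.log_nonneg hKm1
  have hlK1 : 0 ≤ Real.log K1 := Real.log_nonneg (by linarith)
  obtain ⟨l0, hl0⟩ : ∃ l0 : ℝ, l0 = max 0 (Real.log (64 * PA)) := ⟨_, rfl⟩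
  have hl00 : 0 ≤ l0 := by rw [hl0]; exact le_max_left _ _
  have hl01 : 64 * PA ≤ Real.exp l0 := by
    rw [← Real.exp_log (by positivity : 0 < 64 * PA)]
    refine Real.exp_le_exp.2 ?_
    rw [hl0]
    exact le_max_right _ _
  obtain ⟨l16, hl16⟩ : ∃ l16 : ℝ, l16 = max 0 (Real.log (16 / ε)) := ⟨_, rfl⟩
  have hl160 : 0 ≤ l16 := by rw [hl16]; exact le_max_left _ _
  have hl161 : Real.log (16 / ε) ≤ l16 := by rw [hl16]; exact le_max_right _ _
  have hσ := sig_nonneg hJ
  have hπ := Real.pi_pos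
  obtain ⟨c, hc⟩ : ∃ c : ℝ, c = 2 * Real.pi * sig J + ε / 4 + ε / 8 := ⟨_, rfl⟩
  have hc0 : 0 < c := by rw [hc]; positivity
  obtain ⟨X0, hX0⟩ : ∃ X0 : ℝ, X0 = 20 + 4 * (22 + 2 * c) / (ε / 40) + 4 / (ε / 40) := ⟨_, rfl⟩
  have hX01 : 0 ≤ 4 * (22 + 2 * c) / (ε / 40) := by positivity
  have hX02 : 0 ≤ 4 / (ε / 40) := by positivity
  obtain ⟨L0, hL0⟩ : ∃ L0 : ℝ, L0 = l0 + 2 * Real.log Km + 6 + 38 * Real.log K1 := ⟨_, rfl⟩
  have hL00 : 0 ≤ L0 := by rw [hL0]; positivity
  obtain ⟨K, hK⟩ : ∃ K : ℝ, K = KA + 1 + L0 + 152 / (ε / 40) + 144 / ε +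
    4 * (8 + Real.log Km + l16) / ε := ⟨_, rfl⟩
  have hKp1 : 0 ≤ 152 / (ε / 40) := by positivity
  have hKp2 : 0 ≤ 144 / ε := by positivity
  have hKp3 : 0 ≤ 4 * (8 + Real.log Km + l16) / ε := by positivity
  have hK1' : 1 ≤ K := by rw [hK]; linarith
  have hKpos : 0 < K := by linarith
  have hK1pos : 0 < K1 := by linarith
  refine ⟨K, (Real.exp (-X0) / K1) ^ 2, hK1', by positivity, ?_⟩
  intro N hN β hβ1 hβ2 L _ x y
  have hN0 : N ≠ 0 := by omega
  have hNpos : (0 : ℝ) < N := by exact_mod_cast Nat.pos_of_ne_zero hN0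
  have hN1 : (1 : ℝ) ≤ N := by exact_mod_cast (by omega : 1 ≤ N)
  have hN3 : (3 : ℝ) ≤ N := by exact_mod_cast hN
  obtain ⟨n, hn⟩ : ∃ n : ℝ, n = Real.log N := ⟨_, rfl⟩
  have hn0 : 0 ≤ n := by rw [hn]; exact Real.log_nonneg hN1
  obtain ⟨l, hl⟩ : ∃ l : ℝ, l = 1 + Real.log N := ⟨_, rfl⟩
  have hl1 : 1 ≤ l := by rw [hl, ← hn]; linarith
  have hlN : l ≤ N := by
    have := Real.log_le_sub_one_of_pos hNpos
    rw [hl]
    linarith
  have hll0 : 0 ≤ Real.log l := Real.log_nonneg hl1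
  have hlln : Real.log l ≤ n := by
    rw [hn]
    exact Real.log_le_log (by linarith) hlN
  rw [← hl] at hβ1
  obtain ⟨t, ht⟩ : ∃ t : ℝ, t = β / N := ⟨_, rfl⟩
  have hβt : β = t * N := by rw [ht]; field_simp
  have htK : K * (1 + Real.log l) ≤ t := by
    rw [ht, le_div_iff₀ hNpos]
    linarith
  have hKlog : 0 ≤ K * Real.log l := by positivity
  have htK1 : K ≤ t := by
    rw [mul_add, mul_one] at htK
    linarith
  have ht1 : 1 ≤ t := by linarith
  have ht0 : 0 < t := by linarith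
  have hβ0 : 0 < β := by rw [hβt]; positivity
  have hβ11 : 1 ≤ β := by
    rw [hβt]
    exact one_le_mul_of_one_le_of_one_le ht1 hN1
  rw [← ht]
  obtain ⟨b, hb⟩ : ∃ b : ℝ, b = 1 + t := ⟨_, rfl⟩
  have hb1 : 1 ≤ b := by linarith
  have hb2 : b ≤ 2 * t := by linarith
  have hlogb : Real.log b ≤ t := by
    have := Real.log_le_sub_one_of_pos (by linarith : 0 < b)
    linarith
  have hlogb2 : Real.log b ≤ ε / 8 * t + l16 := by
    have h1 : Real.log b = Real.log (ε / 16 * b) + Real.log (16 / ε) := by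
      rw [← Real.log_mul (by positivity) (by positivity)]
      congr 1
      field_simp
    have h2 := Real.log_le_sub_one_of_pos (by positivity : 0 < ε / 16 * b)
    have h3 : ε / 16 * b ≤ ε / 16 * (2 * t) := mul_le_mul_of_nonneg_left hb2 (by positivity)
    rw [h1]
    linarith
  have hlogt : Real.log t ≤ t := by
    have := Real.log_le_sub_one_of_pos ht0
    linarith
  have h9l : 9 * Real.log l ≤ ε / 16 * t := by
    have h1 : 144 / ε * Real.log l ≤ t := by
      have h2 : 144 / ε * Real.log l ≤ K * (1 + Real.log l) :=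
        mul_le_mul (by rw [hK]; linarith) (by linarith) hll0 hKpos.le
      linarith
    have h2 := mul_le_mul_of_nonneg_left h1 (by positivity : 0 ≤ ε / 16)
    have e1 : ε / 16 * (144 / ε * Real.log l) = 9 * Real.log l := by
      field_simp
      ring
    linarith
  have hKBvb : KB * v * b ≤ ε / 8 * t := by
    have h1 : KB * v * b ≤ ε / 16 * (2 * t) := mul_le_mul hvε hb2 (by linarith) (by positivity)
    linarith
  -- the smallness of `z`
  obtain ⟨z, hz⟩ : ∃ z : ℝ, z = K1 * √β / N := ⟨_, rfl⟩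
  have hzpos : 0 < z := by rw [hz]; positivity
  have hδ1 : (Real.exp (-X0) / K1) ^ 2 ≤ 1 := by
    refine pow_le_one₀ (by positivity) ?_
    rw [div_le_one hK1pos]
    have : Real.exp (-X0) ≤ 1 := Real.exp_le_one_iff.2 (by linarith)
    linarith
  have hzX0 : z ≤ Real.exp (-X0) := by
    have h1 : √β ≤ Real.exp (-X0) / K1 * N := by
      rw [Real.sqrt_le_left (by positivity), mul_pow]
      exact hβ2
    rw [hz, div_le_iff₀ hNpos]
    calc K1 * √β ≤ K1 * (Real.exp (-X0) / K1 * N) := mul_le_mul_of_nonneg_left h1 hK1pos.le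
      _ = Real.exp (-X0) * N := by field_simp
  obtain ⟨X, hX⟩ : ∃ X : ℝ, X = -Real.log z := ⟨_, rfl⟩
  have hzX : z = Real.exp (-X) := by rw [hX, neg_neg, Real.exp_log hzpos]
  have hXX0 : X0 ≤ X := by
    rw [hzX] at hzX0
    have := Real.exp_le_exp.1 hzX0
    linarith
  have hnX : n = 2 * Real.log K1 + Real.log t + 2 * X := by
    have h1 : z ^ 2 * N = K1 ^ 2 * t := by
      rw [hz, div_pow, mul_pow, Real.sq_sqrt hβ0.le, hβt]
      field_simp
    have h2 := congrArg Real.log h1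
    rw [Real.log_mul (by positivity) (by positivity), Real.log_mul (by positivity) (by positivity),
      Real.log_pow, Real.log_pow] at h2
    push_cast at h2
    rw [hX, hn]
    linarith
  have hKN : KA ≤ N := by
    have h1 : K * N ≤ N * N := by
      calc K * N ≤ t * N := mul_le_mul_of_nonneg_right htK1 hNpos.le
        _ = β := hβt.symm
        _ ≤ (Real.exp (-X0) / K1) ^ 2 * (N : ℝ) ^ 2 := hβ2
        _ ≤ 1 * (N : ℝ) ^ 2 := mul_le_mul_of_nonneg_right hδ1 (by positivity)
        _ = N * N := by ring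
    have h2 := le_of_mul_le_mul_right h1 hNpos
    have h3 : KA ≤ K := by rw [hK]; linarith
    linarith
  have hKAt : KA ≤ t := by
    have h3 : KA ≤ K := by rw [hK]; linarith
    linarith
  -- the radii
  obtain ⟨r0, hr0⟩ : ∃ r0 : ℝ, r0 = Km * (b * l) := ⟨_, rfl⟩
  have hbl : b + Real.log N ≤ b * l := by
    rw [hl, ← hn, mul_add, mul_one]
    have := le_mul_of_one_le_left hn0 hb1
    linarith
  have hbl0 : 0 ≤ b + Real.log N := by rw [← hn]; linarith
  have hr0K : ∀ k : ℝ, 0 ≤ k → k ≤ Km → k * (b + Real.log N) ≤ r0 := by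
    intro k hk hk2
    rw [hr0]
    exact mul_le_mul hk2 hbl hbl0 (by linarith)
  have hr01 : 1 ≤ r0 := by
    rw [hr0]
    exact one_le_mul_of_one_le_of_one_le hKm1 (one_le_mul_of_one_le_of_one_le hb1 hl1)
  obtain ⟨R1, hR1⟩ : ∃ R1 : ℝ, R1 = r0 * Real.exp ((2 * Real.pi * sig J + ε / 4) * t) := ⟨_, rfl⟩
  have hr0R1 : r0 ≤ R1 := by
    rw [hR1]
    refine le_mul_of_one_le_right (by linarith) (Real.one_le_exp (by positivity))
  have hU1 : UB J N β R1 v := by
    have h1 := hstA N (by omega) hKN β hβ0.le (by rw [← ht]; exact hKAt) r0 (by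
      rw [← ht, ← hb]
      exact hr0K KA (by linarith) (by rw [hKm]; linarith))
    rw [← ht, ← hR1] at h1
    exact h1
  obtain ⟨R2, hR2⟩ : ∃ R2 : ℝ, R2 = R1 * (Real.exp (KB * v * b) * (Real.exp 3 * l ^ 8)) := ⟨_, rfl⟩
  have hR1R2 : R1 ≤ R2 := by
    rw [hR2]
    refine le_mul_of_one_le_right (by linarith) ?_
    refine one_le_mul_of_one_le_of_one_le (Real.one_le_exp (by positivity)) ?_
    exact one_le_mul_of_one_le_of_one_le (Real.one_le_exp (by norm_num)) (one_le_pow₀ hl1)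
  have hU2 : UB J N β R2 (3 / N) := by
    refine hisoB N (by omega) β hβ0.le v hv0 hv1 R1 ?_ hU1 R2 ?_
    · rw [← ht, ← hb]
      exact (hr0K KB (by linarith) (by rw [hKm]; linarith)).trans hr0R1
    · rw [← ht, ← hb, ← hl, ← hR2]
  obtain ⟨E2, hE2⟩ : ∃ E2 : ℝ, E2 = Real.log Km + Real.log b + 9 * Real.log l +
    (2 * Real.pi * sig J + ε / 4) * t + KB * v * b + 3 := ⟨_, rfl⟩
  have hR2E : R2 = Real.exp E2 := by
    have e9 : Real.exp (9 * Real.log l) = l ^ 9 := by
      have : Real.exp (9 * Real.log l) = Real.exp (Real.log l) ^ 9 := by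
        rw [← Real.exp_nat_mul]
        norm_num
      rw [this, Real.exp_log (by linarith)]
    rw [hE2, Real.exp_add, Real.exp_add, Real.exp_add, Real.exp_add, Real.exp_add, e9,
      Real.exp_log (by linarith), Real.exp_log (by linarith), hR2, hR1, hr0]
    ring
  obtain ⟨s, hs⟩ : ∃ s : ℕ, s = ⌈ε / 40 * t⌉₊ := ⟨_, rfl⟩
  have hs1 : ε / 40 * t ≤ s := by rw [hs]; exact Nat.le_ceil _
  have hs2 : (s : ℝ) ≤ ε / 40 * t + 1 := by
    rw [hs]
    exact (Nat.ceil_lt_add_one (by positivity)).le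
  have hs0 : (0 : ℝ) ≤ s := Nat.cast_nonneg s
  have h8s : (1 : ℝ) ≤ 8 ^ s := one_le_pow₀ (by norm_num)
  obtain ⟨R, hR⟩ : ∃ R : ℝ, R = 4 * (R2 * 8 ^ s) := ⟨_, rfl⟩
  have hR4' : R / 4 = R2 * 8 ^ s := by rw [hR]; ring
  have hR2R : R2 ≤ R / 4 := by
    rw [hR4']
    exact le_mul_of_one_le_right (by linarith) h8s
  have hr0R : r0 ≤ R / 4 := by linarith
  have hR4 : 4 ≤ R := by linarith
  have hRa : 2 / a' ≤ R := by
    have h1 : 2 / a' ≤ Km := by rw [hKm]; linarith
    have h2 : Km ≤ r0 := by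
      rw [hr0]
      exact le_mul_of_one_le_right (by linarith) (one_le_mul_of_one_le_of_one_le hb1 hl1)
    linarith
  have hM : MB J N β (R / 4) (z ^ s) := by
    rw [hR4']
    refine hmd N hN β hβ11 z hz R2 ?_ hU2 s
    rw [← ht, ← hb]
    exact (hr0K K2 (by linarith) (by rw [hKm]; linarith)).trans (by linarith)
  have hXt : t ≤ s * X / 4 := by
    have h1 : 4 / (ε / 40) ≤ X := by linarith
    rw [div_le_iff₀ (by positivity)] at h1
    have h2 : t * 4 ≤ t * (X * (ε / 40)) := mul_le_mul_of_nonneg_left h1 ht0.le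
    have h3 := mul_le_mul_of_nonneg_right hs1 (by linarith : 0 ≤ X)
    linarith
  have hcond : P * (β * A') * (z ^ s * R ^ 2 + R ^ 2 * Real.exp (-(a' * R / 8))) ≤ 1 / 2 := by
    have hle : P * (β * A') ≤ PA * β := by
      rw [hPA]
      have : 0 ≤ P * β := by positivity
      have e1 : P * (A' + 1) * β = P * (β * A') + P * β := by ring
      rw [e1]
      linarith
    have hn2 : 0 ≤ z ^ s * R ^ 2 + R ^ 2 * Real.exp (-(a' * R / 8)) := by positivity
    refine (mul_le_mul_of_nonneg_right hle hn2).trans ?_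
    rw [mul_add]
    have h1 : PA * β * (R ^ 2 * Real.exp (-(a' * R / 8))) ≤ 1 / 4 := by
      have h2 := herr N (by omega) β hβ0.le (R / 4) (by
        rw [← ht, ← hb]
        exact (hr0K K4 (by linarith) (by rw [hKm]; linarith)).trans hr0R) 0 (by simp)
      have h3 := h2.1
      have h4 := h2.2.2
      rw [Nat.cast_zero, Real.exp_zero] at h3
      have e1 : R ^ 2 = (2 * (R / 4) * (1 + 1)) ^ 2 := by ring
      have e2 : -(a' * R / 8) = -(a' / 2) * (R / 4) := by ring
      have h5 : 1 / (N : ℝ) ≤ 1 / 3 := one_div_le_one_div_of_le (by norm_num) hN3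
      have h6 : PA * β ≤ PA * (1 + β) := mul_le_mul_of_nonneg_left (by linarith) hPA0.le
      have h7 : 0 ≤ (2 * (R / 4) * (1 + 1)) ^ 2 * Real.exp (-(a' / 2) * (R / 4)) := by positivity
      rw [e2, e1]
      calc PA * β * ((2 * (R / 4) * (1 + 1)) ^ 2 * Real.exp (-(a' / 2) * (R / 4)))
          ≤ PA * (1 + β) * ((2 * (R / 4) * (1 + 1)) ^ 2 * Real.exp (-(a' / 2) * (R / 4))) :=
            mul_le_mul_of_nonneg_right h6 h7
        _ = PA * (1 + β) * (2 * (R / 4) * (1 + 1)) ^ 2 * Real.exp (-(a' / 2) * (R / 4)) := by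
            ring
        _ ≤ 1 / 4 := by linarith
    have h2 : PA * β * (z ^ s * R ^ 2) ≤ 1 / 4 := by
      have h64 : ((8 : ℝ) ^ s) ^ 2 ≤ Real.exp (5 * s) := by
        have e4 : Real.exp (5 * s) = Real.exp 5 ^ s := by
          rw [← Real.exp_nat_mul]
          congr 1
          ring
        rw [e4, ← pow_mul, mul_comm s 2, pow_mul]
        refine pow_le_pow_left₀ (by norm_num) ?_ s
        have e5 : Real.exp 5 = Real.exp 1 ^ 5 := by
          rw [← Real.exp_nat_mul]
          norm_num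
        rw [e5]
        have h6 : (2.7182818283 : ℝ) ≤ Real.exp 1 := Real.exp_one_gt_d9.le
        calc ((8 : ℝ) ^ 2) ≤ (2.7182818283 : ℝ) ^ 5 := by norm_num
          _ ≤ _ := pow_le_pow_left₀ (by norm_num) h6 5
      have hβe : β = Real.exp (Real.log t + n) := by
        rw [Real.exp_add, Real.exp_log ht0, hn, Real.exp_log hNpos]
        exact hβt
      have hzs : z ^ s = Real.exp (-(s * X)) := by
        rw [hzX, ← Real.exp_nat_mul]
        congr 1
        ring
      have hRe : R ^ 2 = 16 * Real.exp (2 * E2) * ((8 : ℝ) ^ s) ^ 2 := by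
        rw [hR, hR2E]
        have : Real.exp (2 * E2) = Real.exp E2 ^ 2 := by
          rw [← Real.exp_nat_mul]
          norm_num
        rw [this]
        ring
      calc PA * β * (z ^ s * R ^ 2)
          = PA * Real.exp (Real.log t + n) * (Real.exp (-(s * X)) *
            (16 * Real.exp (2 * E2) * ((8 : ℝ) ^ s) ^ 2)) := by rw [hzs, hRe, ← hβe]
        _ ≤ PA * Real.exp (Real.log t + n) * (Real.exp (-(s * X)) *
            (16 * Real.exp (2 * E2) * Real.exp (5 * s))) := by gcongr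
        _ = (64 * PA) * Real.exp (Real.log t + n + -(s * X) + 2 * E2 + 5 * s) / 4 := by
            simp only [Real.exp_add]
            ring
        _ ≤ Real.exp l0 * Real.exp (Real.log t + n + -(s * X) + 2 * E2 + 5 * s) / 4 := by
            gcongr
        _ = Real.exp (l0 + (Real.log t + n + -(s * X) + 2 * E2 + 5 * s)) / 4 := by
            rw [Real.exp_add l0]
        _ ≤ 1 / 4 := by
            refine div_le_div_of_nonneg_right (Real.exp_le_one_iff.2 ?_) (by norm_num)
            have hX20 : 20 ≤ X := by linarith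
            have g1 : (5 : ℝ) * s ≤ s * X / 4 := by
              have := mul_le_mul_of_nonneg_left hX20 hs0
              linarith
            have g0 := mul_le_mul_of_nonneg_right hs1 (by linarith : 0 ≤ X)
            have g2 : (22 + 2 * c) * t ≤ s * X / 4 := by
              have h3 : 4 * (22 + 2 * c) / (ε / 40) ≤ X := by linarith
              rw [div_le_iff₀ (by positivity)] at h3
              have h4 := mul_le_mul_of_nonneg_left h3 ht0.le
              linarith
            have g3 : 38 * X ≤ s * X / 4 := by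
              have h3 : 152 / (ε / 40) ≤ t := by
                have : 152 / (ε / 40) ≤ K := by rw [hK]; linarith
                linarith
              rw [div_le_iff₀ (by positivity)] at h3
              have h4 := mul_le_mul_of_nonneg_right h3 (by linarith : 0 ≤ X)
              linarith
            have g4 : L0 ≤ s * X / 4 := by
              have : L0 ≤ K := by rw [hK]; linarith
              linarith
            have g5 : (2 * Real.pi * sig J + ε / 4) * t + KB * v * b ≤ c * t := by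
              rw [hc]
              have e1 : (2 * Real.pi * sig J + ε / 4 + ε / 8) * t =
                (2 * Real.pi * sig J + ε / 4) * t + ε / 8 * t := by ring
              rw [e1]
              linarith
            have g6 : 2 * E2 ≤ 2 * Real.log Km + 2 * t + 18 * n + 2 * (c * t) + 6 := by
              rw [hE2]
              linarith
            have g7 : 19 * n ≤ 38 * Real.log K1 + 19 * t + 38 * X := by
              rw [hnX]
              linarith
            have e2 : (22 + 2 * c) * t = 22 * t + 2 * (c * t) := by ring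
            rw [e2] at g2
            rw [hL0] at g4
            linarith
    linarith
  have hCls := Cls_self hJ hβ0.le L
  have hEx : ExpC (β * A') a' (cJ L J β) := hexp β hβ0.le L _ hCls
  have hfin := hcrit (β * A') (by positivity) N hN0 R hR4 hRa (z ^ s) (by positivity) hcond L
    (cJ L J β) hEx (fun hL p η i => hM L hL (cJ L J β) hCls p η i) x y
  have h0 : 0 ≤ corr N L J β x y := by
    rw [corr_eq]
    exact corS_nonneg hN0 (fun e => (hCls e).1) x y
  rw [abs_of_nonneg h0, corr_eq]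
  refine hfin.trans (mul_le_mul_of_nonneg_left (Real.exp_le_exp.2 ?_) (Real.exp_pos _).le)
  rw [neg_mul, neg_mul]
  refine neg_le_neg (mul_le_mul_of_nonneg_right ?_ (tnorm_nonneg _))
  rw [Real.exp_neg, ← one_div]
  refine one_div_le_one_div_of_le (by linarith) ?_
  -- the size of `R`
  have h8 : (8 : ℝ) ^ s ≤ Real.exp (3 * s) := by
    have e4 : Real.exp (3 * s) = Real.exp 3 ^ s := by
      rw [← Real.exp_nat_mul]
      congr 1
      ring
    rw [e4]
    refine pow_le_pow_left₀ (by norm_num) ?_ s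
    have e5 : Real.exp 3 = Real.exp 1 ^ 3 := by
      rw [← Real.exp_nat_mul]
      norm_num
    rw [e5]
    have h6 : (2.7182818283 : ℝ) ≤ Real.exp 1 := Real.exp_one_gt_d9.le
    calc (8 : ℝ) ≤ (2.7182818283 : ℝ) ^ 3 := by norm_num
      _ ≤ _ := pow_le_pow_left₀ (by norm_num) h6 3
  have h4 : (4 : ℝ) ≤ Real.exp 2 := by
    have h3 := Real.quadratic_le_exp_of_nonneg (x := 2) (by norm_num)
    linarith
  rw [hR, hR2E]
  calc 4 * (Real.exp E2 * 8 ^ s) ≤ Real.exp 2 * (Real.exp E2 * Real.exp (3 * s)) := by gcongr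
    _ = Real.exp (2 + (E2 + 3 * s)) := by rw [Real.exp_add, Real.exp_add]
    _ ≤ _ := by
      refine Real.exp_le_exp.2 ?_
      have g1 : 4 * (8 + Real.log Km + l16) / ε ≤ t := by
        have : 4 * (8 + Real.log Km + l16) / ε ≤ K := by rw [hK]; linarith
        linarith
      rw [div_le_iff₀ hε] at g1
      rw [hE2]
      have e1 : (2 * Real.pi * sig J + ε / 4) * t = 2 * Real.pi * sig J * t + ε * t / 4 := by ring
      have e2 : (2 * Real.pi * sig J + ε) * t = 2 * Real.pi * sig J * t + ε * t := by ring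
      rw [e1, e2]
      have hεt : 0 ≤ ε * t := by positivity
      linarith

end Pool.Agent.H12.SH
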