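import Pool.Agent.H12.SH.Stp

/-! # The sharp stage: from `1` to a small constant -/

set_option autoImplicit false
set_option linter.unusedSectionVars false

noncomputable section

namespace Pool.Agent.H12.SH

open MeasureTheory Pool.Agent.H5R2.ON Pool.Agent.H717R2.ON3 Pool.Agent.H983R2.ONJ
open Pool.Agent.H12.LN Pool.Agent.H12.OL

/-- the drop in one sharp step -/
theorem drop_le {N G u κ v : ℝ} (hN : 0 < N) (hG : 0 < G) (hκ : 0 < κ) (hκ8 : κ ≤ 1 / 8)
    (hv : 0 < v) (hGv : G * κ * v = 3) (hu : v ≤ u) (hh : 1 / N ≤ κ / G) :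
    u - (u - 2 / N) / (G * (u + 1 / N) + 1) + 1 / N ≤ u - (1 - 2 * κ) / G := by
  obtain ⟨k, hk⟩ : ∃ k : ℝ, k = 1 / N := ⟨_, rfl⟩
  have hk0 : 0 < k := by rw [hk]; positivity
  have h2k : 2 / N = 2 * k := by rw [hk]; ring
  rw [h2k, ← hk]
  rw [← hk] at hh
  have hGk : G * k ≤ κ := by
    rw [le_div_iff₀ hG] at hh
    linarith
  have hden : 0 < G * (u + k) + 1 := by
    have : 0 < u := by linarith
    positivity
  have h1 : (1 - κ) / G ≤ (u - 2 * k) / (G * (u + k) + 1) := by
    rw [div_le_div_iff₀ hG hden]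
    have h2 : G * κ * v ≤ G * κ * u := mul_le_mul_of_nonneg_left hu (by positivity)
    have h3 : 0 ≤ G * k := by positivity
    nlinarith
  have h2 : (1 - κ) / G = (1 - 2 * κ) / G + κ / G := by ring
  linarith

/-- **The sharp stage.** -/
theorem stageY {J : ℤ × ℤ → ℝ} (hJ : Admissible J) (ε v : ℝ) (hε : 0 < ε) (hv : 0 < v)
    (hv1 : v ≤ 1) : ∃ K : ℝ, 1 ≤ K ∧ ∀ N : ℕ, 2 ≤ N → K ≤ N → ∀ β : ℝ, 0 ≤ β → K ≤ β / N →
    ∀ r : ℝ, K * ((1 + β / N) + Real.log N) ≤ r → ∀ y : ℝ, 0 ≤ y → y ≤ 1 →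
      UB J N β (r * Real.exp ((2 * Real.pi * sig J * y + ε) * (β / N))) (max v (1 - y)) := by
  obtain ⟨C, a, hC, ha, hst⟩ := steps hJ
  have hσ := sig_nonneg hJ
  have hπ := Real.pi_pos
  obtain ⟨c₀, hc₀⟩ : ∃ c₀ : ℝ, c₀ = 2 * Real.pi * sig J + ε / 4 := ⟨_, rfl⟩
  have hc₀0 : 0 < c₀ := by rw [hc₀]; positivity
  obtain ⟨D, hD⟩ : ∃ D : ℝ, D = 1 + 4 * sig J * (2 * Real.pi + 2) / ε := ⟨_, rfl⟩
  have hD1 : 1 ≤ D := by
    rw [hD]
    have : 0 ≤ 4 * sig J * (2 * Real.pi + 2) / ε := by positivity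
    linarith
  have hD0 : 0 < D := by linarith
  obtain ⟨Λ, hΛ⟩ : ∃ Λ : ℝ, Λ = 6 + 32 * D := ⟨_, rfl⟩
  have hΛ6 : 6 ≤ Λ := by rw [hΛ]; linarith
  have hΛ0 : 0 < Λ := by linarith
  have hsharp : ∀ q : ℝ, 120 * D ≤ q →
      sig J * ((1 + 32 / Λ) * (2 * Real.pi + 120 / q)) ≤ c₀ := by
    intro q hq
    have hq0 : 0 < q := lt_of_lt_of_le (by positivity) hq
    obtain ⟨δ, hδ⟩ : ∃ δ : ℝ, δ = 1 / D := ⟨_, rfl⟩
    have hδ0 : 0 < δ := by rw [hδ]; positivity
    have hδ1 : δ ≤ 1 := by
      rw [hδ, div_le_one hD0]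
      exact hD1
    have h1 : 32 / Λ ≤ δ := by
      rw [hδ, div_le_div_iff₀ hΛ0 hD0, hΛ]
      linarith
    have h2 : 120 / q ≤ δ := by
      rw [hδ, div_le_div_iff₀ hq0 hD0]
      linarith
    have h1' : 0 ≤ 32 / Λ := by positivity
    have h2' : 0 ≤ 120 / q := by positivity
    have h3 : (1 + 32 / Λ) * (2 * Real.pi + 120 / q) ≤ (1 + δ) * (2 * Real.pi + δ) := by gcongr
    have h4 : (1 + δ) * (2 * Real.pi + δ) ≤ 2 * Real.pi + δ * (2 * Real.pi + 2) := by
      have e1 : (1 + δ) * (2 * Real.pi + δ) = 2 * Real.pi + δ * (2 * Real.pi + 1) + δ * δ := by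
        ring
      have e2 : δ * δ ≤ δ * 1 := mul_le_mul_of_nonneg_left hδ1 hδ0.le
      rw [e1]
      linarith
    have h5 : sig J * (δ * (2 * Real.pi + 2)) ≤ ε / 4 := by
      have h6 : sig J * (2 * Real.pi + 2) ≤ ε / 4 * D := by
        rw [hD]
        have : ε / 4 * (1 + 4 * sig J * (2 * Real.pi + 2) / ε) =
          ε / 4 + sig J * (2 * Real.pi + 2) := by field_simp
        rw [this]
        linarith
      have h7 : δ * D = 1 := by rw [hδ]; field_simp
      calc sig J * (δ * (2 * Real.pi + 2)) = δ * (sig J * (2 * Real.pi + 2)) := by ring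
        _ ≤ δ * (ε / 4 * D) := mul_le_mul_of_nonneg_left h6 hδ0.le
        _ = ε / 4 * (δ * D) := by ring
        _ = ε / 4 := by rw [h7, mul_one]
    calc sig J * ((1 + 32 / Λ) * (2 * Real.pi + 120 / q))
        ≤ sig J * (2 * Real.pi + δ * (2 * Real.pi + 2)) :=
          mul_le_mul_of_nonneg_left (h3.trans h4) hσ
      _ = 2 * Real.pi * sig J + sig J * (δ * (2 * Real.pi + 2)) := by ring
      _ ≤ c₀ := by rw [hc₀]; linarith
  obtain ⟨κ, hκ⟩ : ∃ κ : ℝ, κ = 1 / (8 + 40 * c₀ / ε) := ⟨_, rfl⟩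
  have hκ0 : 0 < κ := by rw [hκ]; positivity
  have hκ8 : κ ≤ 1 / 8 := by
    rw [hκ]
    refine one_div_le_one_div_of_le (by norm_num) ?_
    have : 0 ≤ 40 * c₀ / ε := by positivity
    linarith
  have hκc : 5 * κ * c₀ ≤ ε / 8 := by
    have h1 : κ * (8 + 40 * c₀ / ε) = 1 := by
      rw [hκ]
      field_simp
    have h2 : κ * (40 * c₀ / ε) ≤ 1 := by
      rw [mul_add] at h1
      linarith
    have h3 : κ * (40 * c₀ / ε) = (40 * κ * c₀) / ε := by ring
    rw [h3, div_le_one hε] at h2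
    linarith
  obtain ⟨G, hG⟩ : ∃ G : ℝ, G = 3 / (κ * v) := ⟨_, rfl⟩
  have hG0 : 0 < G := by rw [hG]; positivity
  have hGv : G * κ * v = 3 := by
    rw [hG]
    field_simp
  obtain ⟨d, hd⟩ : ∃ d : ℝ, d = (1 - 2 * κ) / G := ⟨_, rfl⟩
  have hd0 : 0 < d := by
    rw [hd]
    have : 0 < 1 - 2 * κ := by linarith
    positivity
  obtain ⟨K3, hK3, herr⟩ := errN (2 * a / Λ) C (c₀ / G + 1) (by positivity) hC (by positivity)
  refine ⟨K3 + 2 + G / κ + 120 * D * G / c₀ + G / c₀ + 6 * (2 * G + 1) / ε, ?_, ?_⟩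
  · have : 0 ≤ G / κ + 120 * D * G / c₀ + G / c₀ + 6 * (2 * G + 1) / ε := by positivity
    linarith
  intro N hN hKN β hβ hKβ r hr y hy0 hy1
  have e0 : 0 ≤ G / κ := by positivity
  have e0' : 0 ≤ 120 * D * G / c₀ := by positivity
  have e0'' : 0 ≤ G / c₀ := by positivity
  have e0''' : 0 ≤ 6 * (2 * G + 1) / ε := by positivity
  have hN0 : N ≠ 0 := by omega
  have hNpos : (0 : ℝ) < N := by exact_mod_cast Nat.pos_of_ne_zero hN0
  have hN1 : (1 : ℝ) ≤ N := by exact_mod_cast (by omega : 1 ≤ N)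
  have hlN : 0 ≤ Real.log N := Real.log_nonneg hN1
  obtain ⟨t, ht⟩ : ∃ t : ℝ, t = β / N := ⟨_, rfl⟩
  rw [← ht] at hKβ hr
  rw [← ht]
  have hβt : β = t * N := by rw [ht]; field_simp
  have ht0 : 0 < t := by linarith
  have hb1 : 1 ≤ (1 + t) + Real.log N := by linarith
  have hr2 : 2 ≤ r := by
    refine le_trans (le_trans ?_ (le_mul_of_one_le_right ?_ hb1)) hr
    · linarith
    · linarith
  have hr3 : K3 * ((1 + t) + Real.log N) ≤ r :=
    le_trans (mul_le_mul_of_nonneg_right (by linarith) (by linarith)) hr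
  have hNκ : 1 / (N : ℝ) ≤ κ / G := by
    rw [div_le_div_iff₀ hNpos hG0, one_mul]
    have h1 : G / κ ≤ N := by linarith
    rw [div_le_iff₀ hκ0] at h1
    linarith
  obtain ⟨q, hq⟩ : ∃ q : ℕ, q = ⌈c₀ * t / G⌉₊ := ⟨_, rfl⟩
  have hq1 : c₀ * t / G ≤ q := by rw [hq]; exact Nat.le_ceil _
  have hq2 : (q : ℝ) ≤ c₀ * t / G + 1 := by
    rw [hq]
    exact (Nat.ceil_lt_add_one (by positivity)).le
  have hqD : 120 * D ≤ (q : ℝ) := by
    refine le_trans ?_ hq1
    rw [le_div_iff₀ hG0]
    have h1 : 120 * D * G / c₀ ≤ t := by linarith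
    rw [div_le_iff₀ hc₀0] at h1
    linarith
  have hq0 : (0 : ℝ) < q := lt_of_lt_of_le (by positivity) hqD
  have hqn : 1 ≤ q := by
    have : (0 : ℝ) < q := hq0
    exact_mod_cast this
  have hqD' : (q : ℝ) ≤ (c₀ / G + 1) * (1 + β / N) := by
    rw [← ht]
    refine hq2.trans ?_
    have h1 : 0 ≤ c₀ / G := by positivity
    have e1 : c₀ * t / G = (c₀ / G) * t := by ring
    have e2 : (c₀ / G + 1) * (1 + t) = c₀ / G + (c₀ / G) * t + 1 + t := by ring
    rw [e1, e2]
    linarith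
  have hGN : β * c₀ / q ≤ G * N := by
    rw [div_le_iff₀ hq0, hβt]
    rw [div_le_iff₀ hG0] at hq1
    have h1 := mul_le_mul_of_nonneg_left hq1 hNpos.le
    linarith
  obtain ⟨E, hE⟩ : ∃ E : ℝ, E = 4 * Real.exp q := ⟨_, rfl⟩
  have hE1 : 1 ≤ E := by
    rw [hE]
    have := Real.one_le_exp hq0.le
    linarith
  -- the iteration
  have hP : ∀ j : ℕ, UB J N β (r * E ^ j) (max v (1 - j * d)) := by
    intro j
    induction j with
    | zero =>
      simp only [pow_zero, mul_one, Nat.cast_zero, zero_mul, sub_zero]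
      exact UB_mono hN0 (UB_one J hN0 β r) le_rfl (le_max_right _ _)
    | succ j ih =>
      have hEj : 1 ≤ E ^ j := one_le_pow₀ hE1
      have hrj : r ≤ r * E ^ j := le_mul_of_one_le_right (by linarith) hEj
      obtain ⟨u, hu⟩ : ∃ u : ℝ, u = max v (1 - j * d) := ⟨_, rfl⟩
      have huv : v ≤ u := by rw [hu]; exact le_max_left _ _
      have hu0 : 0 < u := by linarith
      rw [← hu] at ih
      have h1 := (hst Λ hΛ6 N hN β hβ (r * E ^ j) (hr2.trans hrj) q hqn u hu0 ih).1
        (u - (u - 2 / N) / (G * (u + 1 / N) + 1)) (by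
          intro U hU0 hU
          refine alg_sharp hNpos hG0 hu0 hU0 (hU.trans ?_)
          by_cases hUu : U ≤ u
          · refine mul_le_mul_of_nonneg_right ?_ (mul_nonneg hU0 (by linarith))
            refine (iot_le hN hβ (by linarith) hq0 hu0.le (hsharp q hqD)).trans ?_
            refine mul_le_mul hGN ?_ ?_ (by positivity)
            · linarith
            · have : (2 : ℝ) ≤ N := by exact_mod_cast hN
              have : 0 ≤ ((N : ℝ) - 2) * u := mul_nonneg (by linarith) hu0.le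
              linarith
          · exfalso
            push Not at hUu
            have hU0' : 0 < U := by linarith
            have h2 : U * (u - U) < 0 := mul_neg_of_pos_of_neg hU0' (by linarith)
            have h3 := iot_nonneg hJ hN (q := (q : ℝ)) hβ (by linarith : 0 < r * E ^ j) hq0
              hΛ0 hu0.le
            have h4 : (N * U - 1) ^ 2 ≤ 0 := hU.trans (mul_nonpos_of_nonneg_of_nonpos h3 h2.le)
            have h5 : N * U - 1 = 0 := by
              have := le_antisymm h4 (sq_nonneg (N * U - 1))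
              exact pow_eq_zero_iff (two_ne_zero) |>.1 this
            have h6 : 1 / (N : ℝ) ≤ κ / G := hNκ
            have h7 : U = 1 / N := by
              field_simp
              linarith
            have h8 : κ / G ≤ v := by
              rw [div_le_iff₀ hG0]
              have h9 : κ * (G * κ * v) = 3 * κ := by rw [hGv]; ring
              have h11 : κ * κ ≤ 1 := mul_le_one₀ (by linarith) hκ0.le (by linarith)
              have h12 : 0 ≤ G * v := by positivity
              have h10 : κ * κ * (G * v) ≤ 1 * (G * v) := mul_le_mul_of_nonneg_right h11 h12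
              have e3 : κ * κ * (G * v) = κ * (G * κ * v) := by ring
              rw [e3, h9] at h10
              linarith
            linarith)
      have h2 := herr N (by omega) β hβ (r * E ^ j) (by rw [← ht]; exact hr3.trans hrj) q hqD'
      have h3 := h2.2.1.trans h2.2.2
      have h4 := drop_le hNpos hG0 hκ0 hκ8 hv hGv huv hNκ
      refine UB_mono hN0 h1 ?_ ?_
      · rw [pow_succ, hE]
        have h5 : 1 ≤ Real.exp (q : ℝ) := Real.one_le_exp hq0.le
        rw [hE] at hrj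
        have h6 : 0 ≤ r * (4 * Real.exp (q : ℝ)) ^ j := by linarith
        have h7 := mul_le_mul_of_nonneg_left h5 h6
        have e1 : 2 * (r * (4 * Real.exp (q : ℝ)) ^ j) * (Real.exp (q : ℝ) + 1) =
          2 * (r * (4 * Real.exp (q : ℝ)) ^ j * Real.exp (q : ℝ)) +
          2 * (r * (4 * Real.exp (q : ℝ)) ^ j * 1) := by ring
        have e2 : r * ((4 * Real.exp (q : ℝ)) ^ j * (4 * Real.exp (q : ℝ))) =
          4 * (r * (4 * Real.exp (q : ℝ)) ^ j * Real.exp (q : ℝ)) := by ring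
        rw [e1, e2]
        linarith
      · have h5 : u - (u - 2 / N) / (G * (u + 1 / N) + 1) + (Real.exp (C * (1 + β) *
            (2 * (r * E ^ j) * (Real.exp (q : ℝ) + 1)) ^ 2 *
            Real.exp (-((2 * a / Λ) / 2) * (r * E ^ j))) - 1) ≤ u - d := by
          rw [hd]
          linarith
        refine h5.trans ?_
        rcases le_total v (1 - j * d) with h6 | h6
        · rw [hu, max_eq_right h6]
          refine le_trans (le_of_eq ?_) (le_max_right _ _)
          push_cast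
          ring
        · rw [hu, max_eq_left h6]
          refine le_trans ?_ (le_max_left _ _)
          linarith
  obtain ⟨j, hj⟩ : ∃ j : ℕ, j = ⌈y / d⌉₊ := ⟨_, rfl⟩
  have hj1 : y / d ≤ j := by rw [hj]; exact Nat.le_ceil _
  have hj2 : (j : ℝ) ≤ y / d + 1 := by
    rw [hj]
    exact (Nat.ceil_lt_add_one (by positivity)).le
  refine UB_mono hN0 (hP j) ?_ ?_
  · refine mul_le_mul_of_nonneg_left ?_ (by linarith)
    have h4 : (4 : ℝ) ≤ Real.exp 2 := by
      have h3 := Real.quadratic_le_exp_of_nonneg (x := 2) (by norm_num)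
      linarith
    have h5 : E ≤ Real.exp (q + 2) := by
      rw [hE, Real.exp_add, mul_comm]
      exact mul_le_mul_of_nonneg_left h4 (Real.exp_pos _).le
    calc E ^ j ≤ Real.exp (q + 2) ^ j := pow_le_pow_left₀ (by linarith) h5 j
      _ = Real.exp (j * (q + 2)) := by rw [← Real.exp_nat_mul]
      _ ≤ _ := by
        refine Real.exp_le_exp.2 ?_
        have h6 : y / d ≤ y * (G * (1 + 4 * κ)) := by
          rw [hd, div_div_eq_mul_div, div_le_iff₀ (by linarith)]
          have h8 : κ * κ ≤ κ * (1 / 8) := mul_le_mul_of_nonneg_left hκ8 hκ0.le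
          have e1 : (1 + 4 * κ) * (1 - 2 * κ) = 1 + 2 * κ - 8 * (κ * κ) := by ring
          have h7 : 1 ≤ (1 + 4 * κ) * (1 - 2 * κ) := by
            rw [e1]
            linarith
          have h9 := mul_le_mul_of_nonneg_left h7 (by positivity : 0 ≤ y * G)
          rw [mul_one] at h9
          have e2 : y * (G * (1 + 4 * κ)) * (1 - 2 * κ) = y * G * ((1 + 4 * κ) * (1 - 2 * κ)) := by
            ring
          rw [e2]
          exact h9
        have h7 : (j : ℝ) ≤ y * (G * (1 + 4 * κ)) + 1 := by linarith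
        have h8 : (j : ℝ) * (q + 2) ≤ (y * (G * (1 + 4 * κ)) + 1) * (c₀ * t / G + 3) :=
          mul_le_mul h7 (by linarith) (by positivity) (by positivity)
        have h9 : (y * (G * (1 + 4 * κ)) + 1) * (c₀ * t / G + 3) =
            c₀ * t * y + y * (4 * κ * (c₀ * t)) + c₀ * t * (1 / G) +
              3 * (y * (G * (1 + 4 * κ)) + 1) := by
          field_simp
        have h10 : 1 / G ≤ κ := by
          rw [div_le_iff₀ hG0]
          have h11 : G * κ * v ≤ G * κ * 1 := mul_le_mul_of_nonneg_left hv1 (by positivity)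
          rw [hGv] at h11
          linarith
        have hct : 0 ≤ c₀ * t := by positivity
        have h11 : y * (4 * κ * (c₀ * t)) ≤ 1 * (4 * κ * (c₀ * t)) :=
          mul_le_mul_of_nonneg_right hy1 (by positivity)
        have h11' : c₀ * t * (1 / G) ≤ c₀ * t * κ := mul_le_mul_of_nonneg_left h10 hct
        have h12 : 5 * κ * c₀ * t ≤ ε / 8 * t := mul_le_mul_of_nonneg_right hκc ht0.le
        have h12' : c₀ * t * y ≤ (2 * Real.pi * sig J * y) * t + ε / 4 * t := by
          have e2 : c₀ * t * y = (2 * Real.pi * sig J * y) * t + ε / 4 * t * y := by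
            rw [hc₀]
            ring
          rw [e2]
          have : ε / 4 * t * y ≤ ε / 4 * t * 1 := mul_le_mul_of_nonneg_left hy1 (by positivity)
          linarith
        have h13 : 3 * (y * (G * (1 + 4 * κ)) + 1) ≤ ε / 2 * t := by
          have h14 : 6 * (2 * G + 1) / ε ≤ t := by linarith
          rw [div_le_iff₀ hε] at h14
          have h15 : G * (1 + 4 * κ) ≤ G * 2 := mul_le_mul_of_nonneg_left (by linarith) hG0.le
          have h16 : y * (G * (1 + 4 * κ)) ≤ 1 * (G * (1 + 4 * κ)) :=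
            mul_le_mul_of_nonneg_right hy1 (by positivity)
          linarith
        have h14 : 0 ≤ ε * t := by positivity
        rw [h9] at h8
        have e3 : (2 * Real.pi * sig J * y + ε) * t =
          (2 * Real.pi * sig J * y) * t + ε * t := by ring
        rw [e3]
        linarith
  · refine max_le_max le_rfl ?_
    have h1 : y ≤ j * d := by
      rw [div_le_iff₀ hd0] at hj1
      exact hj1
    linarith

/-- **The sharp stage**, the end. -/
theorem stageA {J : ℤ × ℤ → ℝ} (hJ : Admissible J) (ε v : ℝ) (hε : 0 < ε) (hv : 0 < v)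
    (hv1 : v ≤ 1) : ∃ K : ℝ, 1 ≤ K ∧ ∀ N : ℕ, 2 ≤ N → K ≤ N → ∀ β : ℝ, 0 ≤ β → K ≤ β / N →
    ∀ r : ℝ, K * ((1 + β / N) + Real.log N) ≤ r →
      UB J N β (r * Real.exp ((2 * Real.pi * sig J + ε) * (β / N))) v := by
  obtain ⟨K, hK, h⟩ := stageY hJ ε v hε hv hv1
  refine ⟨K, hK, ?_⟩
  intro N hN hKN β hβ hKβ r hr
  have h1 := h N hN hKN β hβ hKβ r hr 1 zero_le_one le_rfl
  rw [mul_one, sub_self, max_eq_left hv.le] at h1
  exact h1

end Pool.Agent.H12.SH
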