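import Pool.Agent.H12.SH.StA
import Pool.Agent.H12.OL.Fin

/-! # The two point function at logarithmic scales, large `N` -/

set_option autoImplicit false
set_option linter.unusedSectionVars false

noncomputable section

namespace Pool.Agent.H12.SH

open MeasureTheory Pool.Agent.H5R2.ON Pool.Agent.H717R2.ON3 Pool.Agent.H983R2.ONJ
open Pool.Agent.Y13.QM
open Pool.Agent.H12.LN Pool.Agent.H12.OL
open Pool.Agent.Results.MP_8be4c0_mp.MassLowerBound (cJ corr_eq)

/-- second moments bound first moments -/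
theorem UB_MB {J : ℤ × ℤ → ℝ} {N : ℕ} (hN : N ≠ 0) {β R u : ℝ} (h : UB J N β R u) :
    MB J N β R (√u) := by
  intro L _ hL c hc p η i
  have h1 := h L hL c hc p η i
  have hcc : Continuous (fun S : Conf N L => cc i (S p)) := cont_cc i p
  refine Real.abs_le_sqrt ?_
  refine le_trans ?_ h1
  rw [gH_eq hN c _ η (F := fun S => cc i (S p)) hcc.measurable,
    gH_eq hN c _ η (F := fun S => cc i (S p) ^ 2) (hcc.pow 2).measurable]
  have h2 := cs (GM c (ball p R) η) (f := fun S => cc i (S p)) (g := fun _ => (1 : ℝ))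
    (intC hN c _ η (hcc.pow 2)) (intC hN c _ η (hcc.mul continuous_const))
    (intC hN c _ η (continuous_const.pow 2))
  have h3 : ∫ _ : Conf N L, (1 : ℝ) ^ 2 ∂(GM c (ball p R) η) = 1 := by
    simp only [one_pow]
    exact E_one hN c _ η 1
  rw [h3, mul_one] at h2
  simpa using h2

/-- **The two point function at logarithmic scales, large `N`.** -/
theorem bigN {J : ℤ × ℤ → ℝ} (hJ : Admissible J) (hσ : 0 < sig J) (ε : ℝ) (hε : 0 < ε) :
    ∃ K : ℝ, 1 ≤ K ∧ ∀ N : ℕ, 3 ≤ N → K ≤ N → ∀ β : ℝ,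
      K * (N * (1 + Real.log (1 + Real.log N))) ≤ β →
      ∀ (L : ℕ) [NeZero L] (x y : Tor L), 0 < tnorm (x - y) →
        |corr N L J β x y| ≤
          max 0 (1 - N * Real.log (tnorm (x - y)) / (2 * Real.pi * sig J * β)) + ε := by
  have hπ := Real.pi_pos
  obtain ⟨v, hv⟩ : ∃ v : ℝ, v = min (ε / 4) 1 := ⟨_, rfl⟩
  have hv0 : 0 < v := by rw [hv]; positivity
  have hv1 : v ≤ 1 := by rw [hv]; exact min_le_right _ _
  have hvε : v ≤ ε / 4 := by rw [hv]; exact min_le_left _ _
  obtain ⟨e, he⟩ : ∃ e : ℝ, e = 2 * Real.pi * sig J * ε / 16 := ⟨_, rfl⟩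
  have he0 : 0 < e := by rw [he]; positivity
  obtain ⟨KY, hKY, hY⟩ := stageY hJ e v he0 hv0 hv1
  obtain ⟨C, a, hC, ha, htp⟩ := two_pt hJ
  obtain ⟨K3, hK3, herr⟩ := errN (2 * a) C 0 (by positivity) hC le_rfl
  obtain ⟨Km, hKm⟩ : ∃ Km : ℝ, Km = KY + K3 := ⟨_, rfl⟩
  have hKm1 : 1 ≤ Km := by rw [hKm]; linarith
  have hlKm : 0 ≤ Real.log (3 * Km) := Real.log_nonneg (by linarith)
  obtain ⟨l8, hl8⟩ : ∃ l8 : ℝ, l8 = max 0 (Real.log (8 / e)) := ⟨_, rfl⟩
  have hl80 : 0 ≤ l8 := by rw [hl8]; exact le_max_left _ _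
  have hl81 : Real.log (8 / e) ≤ l8 := by rw [hl8]; exact le_max_right _ _
  obtain ⟨K, hK⟩ : ∃ K : ℝ, K = KY + 4 / ε + 4 / e + 2 * (Real.log (3 * Km) + l8) / e :=
    ⟨_, rfl⟩
  have p1 : 0 ≤ 4 / ε := by positivity
  have p2 : 0 ≤ 4 / e := by positivity
  have p3 : 0 ≤ 2 * (Real.log (3 * Km) + l8) / e := by positivity
  have hK1 : 1 ≤ K := by rw [hK]; linarith
  have hKpos : 0 < K := by linarith
  refine ⟨K, hK1, ?_⟩
  intro N hN hKN β hβ1 L _ x y hD
  have hN0 : N ≠ 0 := by omega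
  have hNpos : (0 : ℝ) < N := by exact_mod_cast Nat.pos_of_ne_zero hN0
  have hN1 : (1 : ℝ) ≤ N := by exact_mod_cast (by omega : 1 ≤ N)
  obtain ⟨n, hn⟩ : ∃ n : ℝ, n = Real.log N := ⟨_, rfl⟩
  have hn0 : 0 ≤ n := by rw [hn]; exact Real.log_nonneg hN1
  obtain ⟨l, hl⟩ : ∃ l : ℝ, l = 1 + Real.log N := ⟨_, rfl⟩
  have hl1 : 1 ≤ l := by rw [hl, ← hn]; linarith
  have hll0 : 0 ≤ Real.log l := Real.log_nonneg hl1
  rw [← hl] at hβ1
  obtain ⟨t, ht⟩ : ∃ t : ℝ, t = β / N := ⟨_, rfl⟩
  have hβt : β = t * N := by rw [ht]; field_simp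
  have htK : K * (1 + Real.log l) ≤ t := by
    rw [ht, le_div_iff₀ hNpos]
    linarith
  have hKlog : 0 ≤ K * Real.log l := by positivity
  have htK1 : K ≤ t := by
    rw [mul_add, mul_one] at htK
    linarith
  have ht1 : 1 ≤ t := by linarith
  have ht0 : 0 < t := by linarith
  have hβ0 : 0 < β := by rw [hβt]; positivity
  obtain ⟨b, hb⟩ : ∃ b : ℝ, b = 1 + t := ⟨_, rfl⟩
  have hb1 : 1 ≤ b := by linarith
  have hb2 : b ≤ 2 * t := by linarith
  have hlogb2 : Real.log b ≤ e / 4 * t + l8 := by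
    have h1 : Real.log b = Real.log (e / 8 * b) + Real.log (8 / e) := by
      rw [← Real.log_mul (by positivity) (by positivity)]
      congr 1
      field_simp
    have h2 := Real.log_le_sub_one_of_pos (by positivity : 0 < e / 8 * b)
    have h3 : e / 8 * b ≤ e / 8 * (2 * t) := mul_le_mul_of_nonneg_left hb2 (by positivity)
    rw [h1]
    linarith
  have h4l : Real.log l ≤ e / 4 * t := by
    have h1 : 4 / e * Real.log l ≤ t := by
      have h2 : 4 / e * Real.log l ≤ K * (1 + Real.log l) :=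
        mul_le_mul (by rw [hK]; linarith) (by linarith) hll0 hKpos.le
      linarith
    have h2 := mul_le_mul_of_nonneg_left h1 (by positivity : 0 ≤ e / 4)
    have e1 : e / 4 * (4 / e * Real.log l) = Real.log l := by field_simp
    linarith
  have hcst : Real.log (3 * Km) + l8 ≤ e / 2 * t := by
    have h1 : 2 * (Real.log (3 * Km) + l8) / e ≤ t := by
      have : 2 * (Real.log (3 * Km) + l8) / e ≤ K := by rw [hK]; linarith
      linarith
    rw [div_le_iff₀ he0] at h1
    linarith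
  obtain ⟨D, hDd⟩ : ∃ D : ℝ, D = tnorm (x - y) := ⟨_, rfl⟩
  obtain ⟨Y, hYd⟩ : ∃ Y : ℝ, Y = N * Real.log D / (2 * Real.pi * sig J * β) := ⟨_, rfl⟩
  rw [← hDd, ← hYd]
  rw [← hDd] at hD
  have hlogD : Real.log D = 2 * Real.pi * sig J * t * Y := by
    rw [hYd, hβt]
    field_simp
  have hone : |corr N L J β x y| ≤ 1 := by
    rw [abs_corr hJ hN0 hβ0.le]
    exact corS_le_one hN0 _ x y
  by_cases hcase : Y ≤ ε / 4
  · refine hone.trans ?_
    have := le_max_right 0 (1 - Y)
    linarith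
  push Not at hcase
  obtain ⟨z, hz⟩ : ∃ z : ℝ, z = min 1 (Y - ε / 8) := ⟨_, rfl⟩
  have hz0 : 0 ≤ z := by
    rw [hz]
    exact le_min zero_le_one (by linarith)
  have hz1 : z ≤ 1 := by rw [hz]; exact min_le_left _ _
  have hzY : z ≤ Y - ε / 8 := by rw [hz]; exact min_le_right _ _
  have hzm : max 0 (1 - z) ≤ max 0 (1 - Y) + ε / 8 := by
    refine max_le ?_ ?_
    · have := le_max_left 0 (1 - Y)
      linarith
    · rcases le_total 1 (Y - ε / 8) with h | h
      · rw [hz, min_eq_left h, sub_self]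
        have := le_max_left 0 (1 - Y)
        linarith
      · rw [hz, min_eq_right h]
        have := le_max_right 0 (1 - Y)
        linarith
  obtain ⟨r0, hr0⟩ : ∃ r0 : ℝ, r0 = Km * (b + Real.log N) := ⟨_, rfl⟩
  have hbN : 1 ≤ b + Real.log N := by rw [← hn]; linarith
  have hr01 : 1 ≤ r0 := by
    rw [hr0]
    exact one_le_mul_of_one_le_of_one_le hKm1 hbN
  obtain ⟨R, hR⟩ : ∃ R : ℝ, R = r0 * Real.exp ((2 * Real.pi * sig J * z + e) * t) := ⟨_, rfl⟩
  have hr0R : r0 ≤ R := by
    rw [hR]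
    refine le_mul_of_one_le_right (by linarith) (Real.one_le_exp (by positivity))
  have hU : UB J N β R (max v (1 - z)) := by
    have h1 := hY N (by omega) (by
      have : KY ≤ K := by rw [hK]; linarith
      linarith) β hβ0.le (by
      have : KY ≤ K := by rw [hK]; linarith
      rw [← ht]
      linarith) r0 (by
      rw [← ht, ← hb, hr0]
      exact mul_le_mul_of_nonneg_right (by rw [hKm]; linarith) (by linarith)) z hz0 hz1
    rw [← ht, ← hR] at h1
    exact h1
  have h3R : 3 * R ≤ D := by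
    have h1 : r0 ≤ Km * (b * l) := by
      rw [hr0]
      refine mul_le_mul_of_nonneg_left ?_ (by linarith)
      rw [hl, ← hn, mul_add, mul_one]
      have := le_mul_of_one_le_left hn0 hb1
      linarith
    have h2 : 3 * r0 ≤ Real.exp (Real.log (3 * Km) + Real.log b + Real.log l) := by
      rw [Real.exp_add, Real.exp_add, Real.exp_log (by linarith), Real.exp_log (by linarith),
        Real.exp_log (by linarith)]
      calc 3 * r0 ≤ 3 * (Km * (b * l)) := by linarith
        _ = 3 * Km * b * l := by ring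
    calc 3 * R = 3 * r0 * Real.exp ((2 * Real.pi * sig J * z + e) * t) := by rw [hR]; ring
      _ ≤ Real.exp (Real.log (3 * Km) + Real.log b + Real.log l) *
          Real.exp ((2 * Real.pi * sig J * z + e) * t) :=
          mul_le_mul_of_nonneg_right h2 (Real.exp_pos _).le
      _ = Real.exp (Real.log (3 * Km) + Real.log b + Real.log l +
          (2 * Real.pi * sig J * z + e) * t) := by rw [← Real.exp_add]
      _ ≤ Real.exp (Real.log D) := by
          refine Real.exp_le_exp.2 ?_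
          rw [hlogD]
          have h4 : 2 * Real.pi * sig J * t * z ≤ 2 * Real.pi * sig J * t * (Y - ε / 8) :=
            mul_le_mul_of_nonneg_left hzY (by positivity)
          have e1 : 2 * Real.pi * sig J * t * (Y - ε / 8) =
            2 * Real.pi * sig J * t * Y - 2 * e * t := by
            rw [he]
            ring
          rw [e1] at h4
          have e2 : (2 * Real.pi * sig J * z + e) * t = 2 * Real.pi * sig J * t * z + e * t := by
            ring
          rw [e2]
          linarith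
      _ = D := Real.exp_log hD
  have hu0 : 0 ≤ max v (1 - z) := le_max_of_le_left hv0.le
  have hM := UB_MB hN0 hU
  have h5 := htp N hN0 β hβ0.le R (√(max v (1 - z))) (by linarith) (Real.sqrt_nonneg _) hM L x y
    (by rw [← hDd]; exact h3R)
  rw [Real.sq_sqrt hu0] at h5
  have h6 := herr N (by omega) β hβ0.le R (by
    rw [← ht, ← hb]
    refine le_trans ?_ hr0R
    rw [hr0]
    exact mul_le_mul_of_nonneg_right (by rw [hKm]; linarith) (by linarith)) 0 (by simp)
  have h7 := h6.2.1.trans h6.2.2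
  rw [Nat.cast_zero, Real.exp_zero] at h7
  have h8 : Real.exp (C * β * R ^ 2 * Real.exp (-a * R)) - 1 ≤ 1 / N := by
    refine le_trans (sub_le_sub_right (Real.exp_le_exp.2 ?_) 1) h7
    have e1 : -(2 * a / 2) * R = -a * R := by ring
    rw [e1]
    refine mul_le_mul_of_nonneg_right ?_ (Real.exp_pos _).le
    have e2 : (2 * R * (1 + 1)) ^ 2 = 16 * R ^ 2 := by ring
    rw [e2]
    have h9 : 0 ≤ C * R ^ 2 := by positivity
    have h10 : 0 ≤ C * β * R ^ 2 := by positivity
    have e3 : C * (1 + β) * (16 * R ^ 2) = 16 * (C * R ^ 2) + 16 * (C * β * R ^ 2) := by ring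
    rw [e3]
    linarith
  have h9 : 1 / (N : ℝ) ≤ ε / 4 := by
    rw [div_le_iff₀ hNpos]
    have h10 : 4 / ε ≤ N := by
      have : 4 / ε ≤ K := by rw [hK]; linarith
      linarith
    rw [div_le_iff₀ hε] at h10
    linarith
  have h10 : max v (1 - z) ≤ max 0 (1 - z) + v := by
    refine max_le ?_ ?_
    · have := le_max_left 0 (1 - z)
      linarith
    · have := le_max_right 0 (1 - z)
      linarith
  rw [abs_corr hJ hN0 hβ0.le]
  linarith

end Pool.Agent.H12.SH
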