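import Pool.Agent.H12.SH.StC
import Pool.Agent.H12.OL.Cmp

/-! # The two point function at logarithmic scales, uniformly in `N` and in the distance -/

set_option autoImplicit false
set_option linter.unusedSectionVars false

noncomputable section

namespace Pool.Agent.H12.SH

open MeasureTheory Pool.Agent.H5R2.ON Pool.Agent.H717R2.ON3 Pool.Agent.H983R2.ONJ
open Pool.Agent.Y13.QM
open Pool.Agent.H12.LN Pool.Agent.H12.OL
open Filter
open Pool.Agent.Results.MP_8be4c0_mp.MassLowerBound (cJ corr_eq)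

theorem HH_anti {N : ℕ} (hN : 2 ≤ N) {w w' : ℝ} (hw' : 0 < w') (hww : w' < w) :
    HH N w < HH N w' := by
  have hN' : (2 : ℝ) ≤ N := by exact_mod_cast hN
  have hW : (0 : ℝ) < (N : ℝ) - 1 := by linarith
  have hw : 0 < w := by linarith
  unfold HH
  refine mul_lt_mul_of_pos_left ?_ (by positivity)
  have h1 : Real.log (((N : ℝ) - 1) / w) ≤ Real.log (((N : ℝ) - 1) / w') := by
    refine Real.log_le_log (by positivity) ?_
    exact div_le_div_of_nonneg_left hW.le hw' hww.le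
  have h2 : 1 / w < 1 / w' := one_div_lt_one_div_of_lt hw' hww
  linarith

theorem HH_onto {N : ℕ} (hN : 2 ≤ N) (h : ℝ) (hh : 0 ≤ h) :
    ∃ w : ℝ, 0 < w ∧ w ≤ (N : ℝ) - 1 ∧ HH N w = h := by
  have hN' : (2 : ℝ) ≤ N := by exact_mod_cast hN
  have hW : (0 : ℝ) < (N : ℝ) - 1 := by linarith
  obtain ⟨w0, hw0⟩ : ∃ w0 : ℝ, w0 = min ((N : ℝ) - 1) (1 / (4 * h + 1)) := ⟨_, rfl⟩
  have hw00 : 0 < w0 := by rw [hw0]; positivity
  have hw0W : w0 ≤ (N : ℝ) - 1 := by rw [hw0]; exact min_le_left _ _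
  have hw0x : w0 ≤ 1 / (4 * h + 1) := by rw [hw0]; exact min_le_right _ _
  have hge : h ≤ HH N w0 := by
    have h1 : 4 * h + 1 ≤ 1 / w0 := by
      rw [le_div_iff₀ hw00]
      rw [le_div_iff₀ (by positivity)] at hw0x
      linarith
    have h2 : 1 / ((N : ℝ) - 1) ≤ 1 := by
      rw [div_le_one hW]
      linarith
    have h3 : 0 ≤ Real.log (((N : ℝ) - 1) / w0) := Real.log_nonneg (by
      rw [one_le_div hw00]
      exact hw0W)
    have h4 : (1 : ℝ) / 4 ≤ ((N : ℝ) - 1) ^ 2 / (N : ℝ) ^ 2 := by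
      rw [div_le_div_iff₀ (by norm_num) (by positivity)]
      nlinarith
    have h5 : 4 * h ≤ Real.log (((N : ℝ) - 1) / w0) + (1 / w0 - 1 / ((N : ℝ) - 1)) := by
      linarith
    unfold HH
    calc h = 1 / 4 * (4 * h) := by ring
      _ ≤ ((N : ℝ) - 1) ^ 2 / (N : ℝ) ^ 2 *
          (Real.log (((N : ℝ) - 1) / w0) + (1 / w0 - 1 / ((N : ℝ) - 1))) :=
        mul_le_mul h4 h5 (by linarith) (by positivity)
  have hcont : ContinuousOn (HH N) (Set.Icc w0 ((N : ℝ) - 1)) := fun s hs =>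
    (HH_deriv hN (lt_of_lt_of_le hw00 hs.1)).continuousAt.continuousWithinAt
  have h := intermediate_value_Icc' hw0W hcont
  rw [HH_top hN] at h
  obtain ⟨w, hw, hwx⟩ := h ⟨hh, hge⟩
  exact ⟨w, lt_of_lt_of_le hw00 hw.1, hw.2, hwx⟩

/-- comparison of the two exponents for large `N` -/
theorem cmp_big {N : ℕ} (hN : 2 ≤ N) {w : ℝ} (hw : 0 < w) (hwW : w ≤ (N : ℝ) - 1) :
    max 0 (1 - N * XX N w) ≤ Real.exp (-(HH N w)) + 1 / ((N : ℝ) - 1) := by
  have hN' : (2 : ℝ) ≤ N := by exact_mod_cast hN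
  have hW : (0 : ℝ) < (N : ℝ) - 1 := by linarith
  have hE := Real.exp_pos (-(HH N w))
  have hI : 0 < 1 / ((N : ℝ) - 1) := by positivity
  refine max_le (by linarith) ?_
  obtain ⟨h1, -, -⟩ := XX_low hN hw hwW
  have h2 : 1 - w / ((N : ℝ) - 1) ≤ N * XX N w := by
    have h3 := mul_le_mul_of_nonneg_left h1 (by positivity : (0 : ℝ) ≤ N)
    have e1 : (N : ℝ) * (((N : ℝ) - 1 - w) / ((N : ℝ) * ((N : ℝ) - 1))) =
        1 - w / ((N : ℝ) - 1) := by
      field_simp
    rw [e1] at h3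
    exact h3
  have h4 : w / ((N : ℝ) - 1) - 1 / ((N : ℝ) - 1) ≤ Real.exp (-(HH N w)) := by
    have hq : 0 < w / ((N : ℝ) - 1) := by positivity
    have hL : 0 ≤ Real.log (((N : ℝ) - 1) / w) := Real.log_nonneg (by
      rw [one_le_div hw]
      exact hwW)
    have hD : 0 ≤ 1 / w - 1 / ((N : ℝ) - 1) := by
      rw [sub_nonneg]
      exact one_div_le_one_div_of_le hw hwW
    have h5 : HH N w ≤ Real.log (((N : ℝ) - 1) / w) + 1 / w := by
      unfold HH
      have h6 : ((N : ℝ) - 1) ^ 2 / (N : ℝ) ^ 2 ≤ 1 := by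
        rw [div_le_one (by positivity)]
        exact pow_le_pow_left₀ hW.le (by linarith) 2
      calc ((N : ℝ) - 1) ^ 2 / (N : ℝ) ^ 2 *
            (Real.log (((N : ℝ) - 1) / w) + (1 / w - 1 / ((N : ℝ) - 1))) ≤
          1 * (Real.log (((N : ℝ) - 1) / w) + (1 / w - 1 / ((N : ℝ) - 1))) :=
            mul_le_mul_of_nonneg_right h6 (by linarith)
        _ ≤ _ := by linarith
    have h7 : Real.exp (-(Real.log (((N : ℝ) - 1) / w) + 1 / w)) ≤ Real.exp (-(HH N w)) :=
      Real.exp_le_exp.2 (by linarith)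
    refine le_trans ?_ h7
    have e2 : Real.exp (-(Real.log (((N : ℝ) - 1) / w) + 1 / w)) =
        w / ((N : ℝ) - 1) * Real.exp (-(1 / w)) := by
      rw [neg_add, Real.exp_add, ← Real.log_inv, Real.exp_log (by positivity), inv_div]
    rw [e2]
    have h8 := Real.add_one_le_exp (-(1 / w))
    calc w / ((N : ℝ) - 1) - 1 / ((N : ℝ) - 1) = w / ((N : ℝ) - 1) * (-(1 / w) + 1) := by
          field_simp
          ring
      _ ≤ w / ((N : ℝ) - 1) * Real.exp (-(1 / w)) := mul_le_mul_of_nonneg_left h8 hq.le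
  linarith

theorem corr_le_one {J : ℤ × ℤ → ℝ} (hJ : Admissible J) {N : ℕ} (hN : N ≠ 0) {β : ℝ}
    (hβ : 0 ≤ β) (L : ℕ) [NeZero L] (x y : Tor L) : |corr N L J β x y| ≤ 1 := by
  rw [abs_corr hJ hN hβ]
  exact corS_le_one hN _ x y

/-- fixed `N`: all distances at once -/
theorem fixN {J : ℤ × ℤ → ℝ} (hJ : Admissible J) (hσ : 0 < sig J) {N : ℕ} (hN : 2 ≤ N) (ε : ℝ)
    (hε : 0 < ε) : ∀ᶠ β : ℝ in atTop, ∀ (L : ℕ) [NeZero L] (x y : Tor L) (w : ℝ), 0 < w →
      w ≤ (N : ℝ) - 1 → Real.exp (2 * Real.pi * sig J * β * XX N w) ≤ tnorm (x - y) →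
      |corr N L J β x y| ≤ Real.exp (-(HH N w)) + ε := by
  have hN' : (2 : ℝ) ≤ N := by exact_mod_cast hN
  have hN0 : N ≠ 0 := by omega
  have hπ := Real.pi_pos
  obtain ⟨n, hn⟩ : ∃ n : ℕ, 4 / ε < n := exists_nat_gt _
  have hn0 : (0 : ℝ) < n := lt_trans (by positivity) hn
  have hnε : 2 / (n : ℝ) ≤ ε / 2 := by
    rw [div_lt_iff₀ hε] at hn
    rw [div_le_div_iff₀ hn0 (by norm_num)]
    linarith
  have hlev : ∀ i : ℕ, ∃ w : ℝ, 1 ≤ i → i ≤ n →
      0 < w ∧ w ≤ (N : ℝ) - 1 ∧ HH N w = -Real.log ((i : ℝ) / n) := by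
    intro i
    by_cases hi : 1 ≤ i ∧ i ≤ n
    · have hi1 : (1 : ℝ) ≤ i := by exact_mod_cast hi.1
      have hin : (i : ℝ) ≤ n := by exact_mod_cast hi.2
      have h0 : Real.log ((i : ℝ) / n) ≤ 0 :=
        Real.log_nonpos (by positivity) ((div_le_one hn0).2 hin)
      obtain ⟨w, h1, h2, h3⟩ := HH_onto hN (-Real.log ((i : ℝ) / n)) (by linarith)
      exact ⟨w, fun _ _ => ⟨h1, h2, h3⟩⟩
    · exact ⟨0, fun a b => absurd ⟨a, b⟩ hi⟩
  choose W hW using hlev
  have hWlt : ∀ i : ℕ, 1 ≤ i → i + 1 ≤ n → W i < W (i + 1) := by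
    intro i h1 h2
    obtain ⟨a1, a2, a3⟩ := hW i h1 (by omega)
    obtain ⟨b1, b2, b3⟩ := hW (i + 1) (by omega) h2
    by_contra hcon
    push Not at hcon
    have hi1 : (0 : ℝ) < i := by exact_mod_cast (by omega : 0 < i)
    have h3 : Real.log ((i : ℝ) / n) < Real.log (((i + 1 : ℕ) : ℝ) / n) := by
      refine Real.log_lt_log (by positivity) ?_
      push_cast
      exact div_lt_div_of_pos_right (by linarith) hn0
    rcases hcon.eq_or_lt with h | h
    · rw [h, a3] at b3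
      linarith
    · have := HH_anti hN b1 h
      rw [a3, b3] at this
      linarith
  -- the bound at each level
  have hone : ∀ i ∈ Finset.range n, ∀ᶠ β : ℝ in atTop, 1 ≤ i → i + 1 ≤ n →
      ∀ (L : ℕ) [NeZero L] (x y : Tor L),
        Real.exp (2 * Real.pi * sig J * β * XX N (W i)) ≤ tnorm (x - y) →
        |corr N L J β x y| ≤ ((i : ℝ) + 1) / n + ε / 2 := by
    intro i _
    by_cases hi : 1 ≤ i ∧ i + 1 ≤ n
    · obtain ⟨a1, a2, a3⟩ := hW i hi.1 (by omega)
      obtain ⟨b1, b2, b3⟩ := hW (i + 1) (by omega) hi.2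
      have hlt := hWlt i hi.1 hi.2
      have hX := XX_anti hN a1 hlt
      have hgap : 0 < 2 * Real.pi * sig J * (XX N (W i) - XX N (W (i + 1))) := by
        have : 0 < XX N (W i) - XX N (W (i + 1)) := by linarith
        positivity
      obtain ⟨e, he⟩ : ∃ e : ℝ,
          e = min (2 * Real.pi * sig J * (XX N (W i) - XX N (W (i + 1)))) (ε / 2) := ⟨_, rfl⟩
      have he0 : 0 < e := by rw [he]; positivity
      have he1 : e ≤ 2 * Real.pi * sig J * (XX N (W i) - XX N (W (i + 1))) := by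
        rw [he]; exact min_le_left _ _
      have he2 : e ≤ ε / 2 := by rw [he]; exact min_le_right _ _
      obtain ⟨b, hb0, hb⟩ := oneloop_main J hJ N hN (W (i + 1)) b1 b2 e he0
      filter_upwards [eventually_ge_atTop b] with β hβ _ _ L _ x y hxy
      have hβ0 : 0 < β := lt_of_lt_of_le hb0 hβ
      have h1 := (hb β hβ).1 L x y (le_trans (Real.exp_le_exp.2 ?_) hxy)
      · rw [b3, neg_neg, Real.exp_log (by positivity)] at h1
        push_cast at h1
        linarith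
      · have : 2 * Real.pi * sig J * XX N (W (i + 1)) + e ≤ 2 * Real.pi * sig J * XX N (W i) := by
          linarith
        calc (2 * Real.pi * sig J * XX N (W (i + 1)) + e) * β ≤
            2 * Real.pi * sig J * XX N (W i) * β := mul_le_mul_of_nonneg_right this hβ0.le
          _ = 2 * Real.pi * sig J * β * XX N (W i) := by ring
    · exact Eventually.of_forall fun β h1 h2 => absurd ⟨h1, h2⟩ hi
  filter_upwards [(Filter.eventually_all_finset (Finset.range n)).2 hone,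
    eventually_ge_atTop (0 : ℝ)] with β hβ hβ0 L _ x y w hw0 hwN hxy
  have hE := Real.exp_pos (-(HH N w))
  -- the level of `w`
  obtain ⟨i, hi⟩ : ∃ i : ℕ, i = ⌈(n : ℝ) * Real.exp (-(HH N w))⌉₊ := ⟨_, rfl⟩
  have hi1 : 1 ≤ i := by
    rw [hi]
    exact Nat.one_le_iff_ne_zero.2 (Nat.ceil_pos.2 (by positivity)).ne'
  have hi2 : (n : ℝ) * Real.exp (-(HH N w)) ≤ i := by
    rw [hi]
    exact Nat.le_ceil _
  have hi3 : (i : ℝ) < n * Real.exp (-(HH N w)) + 1 := by
    rw [hi]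
    exact Nat.ceil_lt_add_one (by positivity)
  have hi4 : (i : ℝ) / n < Real.exp (-(HH N w)) + 1 / n := by
    rw [div_lt_iff₀ hn0, add_mul, one_div_mul_cancel hn0.ne']
    linarith
  have e1 : 2 / (n : ℝ) = 1 / n + 1 / n := by ring
  have e2 : 0 < 1 / (n : ℝ) := by positivity
  by_cases hin : i + 1 ≤ n
  · obtain ⟨a1, a2, a3⟩ := hW i hi1 (by omega)
    have hi0 : (0 : ℝ) < i := by exact_mod_cast (by omega : 0 < i)
    have hwW : w ≤ W i := by
      by_contra hcon
      push Not at hcon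
      have h1 := HH_anti hN a1 hcon
      rw [a3] at h1
      have h2 : Real.exp (-(HH N w)) ≤ (i : ℝ) / n := by
        rw [le_div_iff₀ hn0]
        linarith
      have h3 : -(HH N w) ≤ Real.log ((i : ℝ) / n) := by
        rw [Real.le_log_iff_exp_le (by positivity)]
        exact h2
      linarith
    have hXX : XX N (W i) ≤ XX N w := by
      rcases hwW.eq_or_lt with h | h
      · rw [h]
      · exact (XX_anti hN hw0 h).le
    have h1 := hβ i (Finset.mem_range.2 (by omega)) hi1 hin L x y (le_trans (Real.exp_le_exp.2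
      (mul_le_mul_of_nonneg_left hXX (by positivity))) hxy)
    have h2 : ((i : ℝ) + 1) / n = (i : ℝ) / n + 1 / n := by ring
    rw [h2] at h1
    linarith
  · have h1 := corr_le_one hJ hN0 hβ0 L x y
    have h2 : (n : ℝ) ≤ i := by
      have : n ≤ i := by omega
      exact_mod_cast this
    have h3 : 1 ≤ (i : ℝ) / n := by
      rw [le_div_iff₀ hn0]
      linarith
    linarith

/-- **The two point function at logarithmic scales, uniformly in `N` and in the distance.** -/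
theorem uni_main {J : ℤ × ℤ → ℝ} (hJ : Admissible J) (hσ : 0 < sig J) (ε : ℝ) (hε : 0 < ε) :
    ∃ K : ℝ, 1 ≤ K ∧ ∀ N : ℕ, 3 ≤ N → ∀ β : ℝ,
      K * (N * (1 + Real.log (1 + Real.log N))) ≤ β →
      (∀ w : ℝ, 0 < w → w ≤ (N : ℝ) - 1 →
        (∀ (L : ℕ) [NeZero L] (x y : Tor L),
          Real.exp (2 * Real.pi * sig J * β * XX N w) ≤ tnorm (x - y) →
          |corr N L J β x y| ≤ Real.exp (-(HH N w)) + ε) ∧
        ∀ G : ℤ × ℤ → ℝ, IsLimitCorr N J β G → ∀ x : ℤ × ℤ,
          Real.exp (2 * Real.pi * sig J * β * XX N w) ≤ znorm x →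
          |G x| ≤ Real.exp (-(HH N w)) + ε) ∧
      (K ≤ N →
        (∀ (L : ℕ) [NeZero L] (x y : Tor L), 0 < tnorm (x - y) →
          |corr N L J β x y| ≤
            max 0 (1 - N * Real.log (tnorm (x - y)) / (2 * Real.pi * sig J * β)) + ε) ∧
        ∀ G : ℤ × ℤ → ℝ, IsLimitCorr N J β G → ∀ x : ℤ × ℤ, 0 < znorm x →
          |G x| ≤ max 0 (1 - N * Real.log (znorm x) / (2 * Real.pi * sig J * β)) + ε) := by
  have hπ := Real.pi_pos
  obtain ⟨K0, hK01, hbig⟩ := bigN hJ hσ (ε / 2) (by positivity)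
  obtain ⟨n0, hn0⟩ : ∃ n0 : ℕ, max K0 (1 + 2 / ε) < n0 := exists_nat_gt _
  have hn1 : K0 < n0 := lt_of_le_of_lt (le_max_left _ _) hn0
  have hn2 : 1 + 2 / ε < n0 := lt_of_le_of_lt (le_max_right _ _) hn0
  have hfix : ∀ᶠ β : ℝ in atTop, ∀ N ∈ Finset.range n0, 2 ≤ N →
      ∀ (L : ℕ) [NeZero L] (x y : Tor L) (w : ℝ), 0 < w →
      w ≤ (N : ℝ) - 1 → Real.exp (2 * Real.pi * sig J * β * XX N w) ≤ tnorm (x - y) →
      |corr N L J β x y| ≤ Real.exp (-(HH N w)) + ε := by
    refine (Filter.eventually_all_finset (Finset.range n0)).2 fun N _ => ?_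
    by_cases hN : 2 ≤ N
    · filter_upwards [fixN hJ hσ hN ε hε] with β hβ _
      exact hβ
    · exact Eventually.of_forall fun β h => absurd h hN
  obtain ⟨b, hb⟩ := Filter.eventually_atTop.1 hfix
  obtain ⟨K, hK⟩ : ∃ K : ℝ, K = max K0 b := ⟨_, rfl⟩
  have hKK : K0 ≤ K := by rw [hK]; exact le_max_left _ _
  have hKb : b ≤ K := by rw [hK]; exact le_max_right _ _
  refine ⟨K, hK01.trans hKK, ?_⟩
  intro N hN β hβ1
  have hN0 : N ≠ 0 := by omega
  have hN1 : (3 : ℝ) ≤ N := by exact_mod_cast hN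
  have hl1 : 0 ≤ Real.log (1 + Real.log N) := by
    refine Real.log_nonneg ?_
    have := Real.log_nonneg (by linarith : (1 : ℝ) ≤ N)
    linarith
  have hNl : 1 ≤ N * (1 + Real.log (1 + Real.log N)) := by nlinarith
  have hβK0 : K0 * (N * (1 + Real.log (1 + Real.log N))) ≤ β :=
    le_trans (mul_le_mul_of_nonneg_right hKK (by linarith)) hβ1
  have hβK : K ≤ β := by
    refine le_trans ?_ hβ1
    nlinarith
  have hβ0 : 0 < β := by linarith
  have htor2 : K0 ≤ N → ∀ (L : ℕ) [NeZero L] (x y : Tor L), 0 < tnorm (x - y) →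
      |corr N L J β x y| ≤
        max 0 (1 - N * Real.log (tnorm (x - y)) / (2 * Real.pi * sig J * β)) + ε / 2 :=
    fun h => hbig N hN h β hβK0
  have htor1 : ∀ w : ℝ, 0 < w → w ≤ (N : ℝ) - 1 → ∀ (L : ℕ) [NeZero L] (x y : Tor L),
      Real.exp (2 * Real.pi * sig J * β * XX N w) ≤ tnorm (x - y) →
      |corr N L J β x y| ≤ Real.exp (-(HH N w)) + ε := by
    intro w hw0 hwN L _ x y hxy
    by_cases hNn : N < n0
    · exact hb β (hKb.trans hβK) N (Finset.mem_range.2 hNn) (by omega) L x y w hw0 hwN hxy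
    · have hNn' : (n0 : ℝ) ≤ N := by
        have : n0 ≤ N := by omega
        exact_mod_cast this
      have hD : 0 < tnorm (x - y) := lt_of_lt_of_le (Real.exp_pos _) hxy
      have h1 := htor2 (by linarith) L x y hD
      have h2 : 2 * Real.pi * sig J * β * XX N w ≤ Real.log (tnorm (x - y)) := by
        rw [Real.le_log_iff_exp_le hD]
        exact hxy
      have h3 : N * XX N w ≤ N * Real.log (tnorm (x - y)) / (2 * Real.pi * sig J * β) := by
        rw [le_div_iff₀ (by positivity)]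
        calc (N : ℝ) * XX N w * (2 * Real.pi * sig J * β) =
            N * (2 * Real.pi * sig J * β * XX N w) := by ring
          _ ≤ N * Real.log (tnorm (x - y)) := mul_le_mul_of_nonneg_left h2 (by positivity)
      have h4 := cmp_big (by omega : 2 ≤ N) hw0 hwN
      have h5 : 1 / ((N : ℝ) - 1) ≤ ε / 2 := by
        have h6 : 2 / ε ≤ (N : ℝ) - 1 := by linarith
        have h7 : (0 : ℝ) < (N : ℝ) - 1 := by linarith
        rw [div_le_iff₀ hε] at h6
        rw [div_le_div_iff₀ h7 (by norm_num)]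
        linarith
      have h6 : max 0 (1 - N * Real.log (tnorm (x - y)) / (2 * Real.pi * sig J * β)) ≤
          max 0 (1 - N * XX N w) := max_le_max le_rfl (by linarith)
      linarith
  refine ⟨fun w hw0 hwN => ⟨htor1 w hw0 hwN, fun G hG x hx => ?_⟩, fun hKN => ⟨?_, ?_⟩⟩
  · exact lim_bound J N β (Real.exp (2 * Real.pi * sig J * β * XX N w))
      (fun _ => Real.exp (-(HH N w)) + ε)
      (fun L _ x y _ hxy => htor1 w hw0 hwN L x y hxy) G hG x
      (lt_of_lt_of_le (Real.exp_pos _) hx) hx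
  · intro L _ x y hxy
    have := htor2 (hKK.trans hKN) L x y hxy
    linarith
  · intro G hG x hx
    refine lim_bound J N β 0
      (fun t => max 0 (1 - N * Real.log t / (2 * Real.pi * sig J * β)) + ε)
      (fun L _ x y hxy _ => ?_) G hG x hx hx.le
    have := htor2 (hKK.trans hKN) L x y hxy
    linarith

end Pool.Agent.H12.SH
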