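import Pool.Agent.H12.OL.Stp
import Pool.Agent.H12.LN.Iter

/-! # Steps with sharp and with rough constants -/

set_option autoImplicit false
set_option linter.unusedSectionVars false

noncomputable section

namespace Pool.Agent.H12.SH

open MeasureTheory Pool.Agent.H5R2.ON Pool.Agent.H717R2.ON3 Pool.Agent.H983R2.ONJ
open Pool.Agent.H12.LN Pool.Agent.H12.OL

/-- the algebra of the sharp step -/
theorem alg_sharp {N : ℝ} (hN : 0 < N) {G u U : ℝ} (hG : 0 < G) (hu : 0 < u) (hU : 0 ≤ U)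
    (h : (N * U - 1) ^ 2 ≤ G * N * (N * u + 1) * (U * (u - U))) :
    U ≤ u - (u - 2 / N) / (G * (u + 1 / N) + 1) := by
  obtain ⟨k, hk⟩ : ∃ k : ℝ, k = 1 / N := ⟨_, rfl⟩
  have hk0 : 0 < k := by rw [hk]; positivity
  have hNk : N * k = 1 := by rw [hk]; field_simp
  have h2k : 2 / N = 2 * k := by rw [hk]; ring
  rw [h2k, ← hk]
  have h1 : (U - k) ^ 2 ≤ G * (u + k) * (U * (u - U)) := by
    have e1 : (N * U - 1) ^ 2 = N ^ 2 * (U - k) ^ 2 := by
      rw [← hNk]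
      ring
    have e2 : G * N * (N * u + 1) * (U * (u - U)) = N ^ 2 * (G * (u + k) * (U * (u - U))) := by
      have : N * u + 1 = N * (u + k) := by rw [mul_add, hNk]
      rw [this]
      ring
    rw [e1, e2] at h
    exact le_of_mul_le_mul_left h (by positivity)
  have hU0 : 0 < U := by
    rcases hU.lt_or_eq with h3 | h3
    · exact h3
    · rw [← h3] at h1
      have : 0 < k ^ 2 := by positivity
      nlinarith
  have h2 : U - 2 * k ≤ G * (u + k) * (u - U) := by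
    have h3 : U * (U - 2 * k) ≤ U * (G * (u + k) * (u - U)) := by
      nlinarith [sq_nonneg k]
    exact le_of_mul_le_mul_left h3 hU0
  have hden : 0 < G * (u + k) + 1 := by positivity
  have h3 : (u - 2 * k) / (G * (u + k) + 1) ≤ u - U := by
    rw [div_le_iff₀ hden]
    nlinarith
  linarith

/-- the algebra of the rough step -/
theorem alg_rough {N : ℝ} (hN : 0 < N) {ι u U K : ℝ} (hu : 0 < u) (hU : 0 ≤ U)
    (hι0 : 0 ≤ ι) (hι : 4 * ι ≤ K * N ^ 2)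
    (h : (N * U - 1) ^ 2 ≤ ι * (U * (u - U))) :
    U ≤ max (2 / N) (K * u) := by
  by_cases hs : U ≤ 2 / N
  · exact hs.trans (le_max_left _ _)
  · push Not at hs
    refine le_trans ?_ (le_max_right _ _)
    have hsN : 2 < N * U := by
      rw [div_lt_iff₀ hN] at hs
      linarith
    have hU0 : 0 < U := lt_trans (by positivity) hs
    have h3 : (N * U / 2) ^ 2 ≤ (N * U - 1) ^ 2 := pow_le_pow_left₀ (by positivity) (by linarith) 2
    have h4 : ι * (U * (u - U)) ≤ U * (ι * u) := by nlinarith [mul_nonneg hι0 (sq_nonneg U)]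
    have h5 : U * (N ^ 2 * U) ≤ U * (4 * ι * u) := by nlinarith
    have h6 : N ^ 2 * U ≤ 4 * ι * u := le_of_mul_le_mul_left h5 hU0
    have h7 : N ^ 2 * U ≤ N ^ 2 * (K * u) := by nlinarith
    exact le_of_mul_le_mul_left h7 (by positivity)

theorem iot_le {J : ℤ × ℤ → ℝ} {N : ℕ} (hN : 2 ≤ N) {β r q Λ u c₀ : ℝ} (hβ : 0 ≤ β)
    (hr : 0 < r) (hq : 0 < q) (hu : 0 ≤ u)
    (hc : sig J * ((1 + 32 / Λ) * (2 * Real.pi + 120 / q)) ≤ c₀) :
    iot J N β r q (r / Λ) u ≤ β * c₀ / q * (((N : ℝ) - 2) * u + 1) := by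
  unfold iot
  have hN2 : (0 : ℝ) ≤ N - 2 := by
    have : (2 : ℝ) ≤ N := by exact_mod_cast hN
    linarith
  have e1 : r / Λ / r = 1 / Λ := by field_simp
  rw [e1]
  refine mul_le_mul_of_nonneg_right ?_ (by positivity)
  have e2 : β * sig J * ((1 + 32 * (1 / Λ)) * (2 * Real.pi + 120 / q) / q) =
      β * (sig J * ((1 + 32 / Λ) * (2 * Real.pi + 120 / q))) / q := by ring
  rw [e2]
  exact div_le_div_of_nonneg_right (mul_le_mul_of_nonneg_left hc hβ) hq.le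

theorem iot_nonneg {J : ℤ × ℤ → ℝ} (hJ : Admissible J) {N : ℕ} (hN : 2 ≤ N) {β r q Λ u : ℝ}
    (hβ : 0 ≤ β) (hr : 0 < r) (hq : 0 < q) (hΛ : 0 < Λ) (hu : 0 ≤ u) :
    0 ≤ iot J N β r q (r / Λ) u := by
  unfold iot
  have hN2 : (0 : ℝ) ≤ N - 2 := by
    have : (2 : ℝ) ≤ N := by exact_mod_cast hN
    linarith
  have := sig_nonneg hJ
  have := Real.pi_pos
  positivity

/-- both steps, with the error of the truncation at `r / Λ` -/
theorem steps {J : ℤ × ℤ → ℝ} (hJ : Admissible J) : ∃ C a : ℝ, 0 < C ∧ 0 < a ∧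
    ∀ Λ : ℝ, 6 ≤ Λ → ∀ N : ℕ, 2 ≤ N → ∀ β : ℝ, 0 ≤ β → ∀ r : ℝ, 2 ≤ r → ∀ q : ℕ, 1 ≤ q →
    ∀ u : ℝ, 0 < u → UB J N β r u →
    (∀ B : ℝ, (∀ U : ℝ, 0 ≤ U →
        ((N : ℝ) * U - 1) ^ 2 ≤ iot J N β r q (r / Λ) u * (U * (u - U)) → U ≤ B) →
      UB J N β (2 * r * (Real.exp q + 1)) (B + (Real.exp (C * (1 + β) *
        (2 * r * (Real.exp q + 1)) ^ 2 * Real.exp (-((2 * a / Λ) / 2) * r)) - 1))) ∧
    (∀ m B : ℝ, 0 ≤ m → MB J N β r m → (∀ α : ℝ,
        ((N : ℝ) - 1) ^ 2 * α ^ 2 ≤ iot J N β r q (r / Λ) u * (m ^ 2 - α ^ 2) → |α| ≤ B) →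
      MB J N β (2 * r * (Real.exp q + 1)) (B + (Real.exp (C * (1 + β) *
        (2 * r * (Real.exp q + 1)) ^ 2 * Real.exp (-((2 * a / Λ) / 2) * r)) - 1))) := by
  obtain ⟨C, a, hC, ha, hf⟩ := fstep hJ
  refine ⟨C, a, hC, ha, ?_⟩
  intro Λ hΛ N hN β hβ r hr q hq u hu hU
  have hN0 : N ≠ 0 := by omega
  have hΛ0 : 0 < Λ := by linarith
  have hr0 : 0 < r := by linarith
  have hq1 : (1 : ℝ) ≤ q := by exact_mod_cast hq
  have hρ0 : 0 ≤ r / Λ := by positivity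
  have hρ6 : 6 * (r / Λ) ≤ r := by
    rw [mul_div_assoc', div_le_iff₀ hΛ0]
    nlinarith
  have herr : Real.exp (C * β * (2 * r * (Real.exp (q : ℝ) + 1)) ^ 2 *
      Real.exp (-a * (r / Λ))) - 1 ≤ Real.exp (C * (1 + β) *
        (2 * r * (Real.exp (q : ℝ) + 1)) ^ 2 * Real.exp (-((2 * a / Λ) / 2) * r)) - 1 := by
    refine sub_le_sub_right (Real.exp_le_exp.2 ?_) 1
    have e1 : -a * (r / Λ) = -((2 * a / Λ) / 2) * r := by ring
    rw [e1]
    refine mul_le_mul_of_nonneg_right (mul_le_mul_of_nonneg_right ?_ (by positivity))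
      (Real.exp_pos _).le
    exact mul_le_mul_of_nonneg_left (by linarith) hC.le
  constructor
  · intro B hB L _ hL c hc p η i
    obtain ⟨U, α, hU0, hU1, -, hU2, -⟩ := hf N hN β hβ r q (r / Λ) hr hq1 hρ0 hρ6 u 1 hu
      zero_le_one hU (MB_one J hN0 β r) L hL c hc p η i
    have h1 := hB U hU0 hU1
    have h2 := (abs_le.1 hU2).2
    linarith
  · intro m B hm hM hB L _ hL c hc p η i
    obtain ⟨U, α, hU0, -, hα, -, hα2⟩ := hf N hN β hβ r q (r / Λ) hr hq1 hρ0 hρ6 u m hu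
      hm hU hM L hL c hc p η i
    have h1 := hB α hα
    have h2 := abs_add_le α (gH (pS c) (ball p (2 * r * (Real.exp (q : ℝ) + 1))) η
      (fun S => cc i (S p)) - α)
    rw [add_sub_cancel] at h2
    linarith

end Pool.Agent.H12.SH
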